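import Pool.Agent.H853.CC.Local

/-!
# The density of the primes
-/

set_option autoImplicit false
set_option linter.unusedSectionVars false

namespace Pool.Agent.H853.CC

open Module TensorProduct Polynomial Pool.Agent.TH118.SG Pool.Agent.Y114.RM Pool.Agent.Y86.RM
  Pool.Agent.Y914.RM Pool.Agent.Y212.RM Pool.Agent.NH34.BD Pool.Agent.Y114.MU Pool.Agent.H204R3.GP
  Pool.Agent.H853.SR Pool.Agent.Y114.TF Pool.Agent.Y114.GF Pool.Agent.W522.C

theorem exists_int (P : ℚ[X]) : ∃ Q : ℤ[X], ∃ b : ℤ, b ≠ 0 ∧ Q.map (algebraMap ℤ ℚ) = b • P := by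
  obtain ⟨b, hb⟩ := IsLocalization.integerNormalization_map_to_map (nonZeroDivisors ℤ) P
  exact ⟨_, b, nonZeroDivisors.ne_zero b.2, hb⟩

theorem aeval_int {P : ℚ[X]} {Q : ℤ[X]} {b : ℤ} (hb : b ≠ 0)
    (h : Q.map (algebraMap ℤ ℚ) = b • P) {K : Type} [Field K] [CharZero K] [Algebra ℚ K] (z : K) :
    aeval z Q = 0 ↔ aeval z P = 0 := by
  have h1 : aeval z Q = (b : K) * aeval z P := by
    rw [← aeval_map_algebraMap ℚ z Q, h, map_zsmul, zsmul_eq_mul]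
  rw [h1, mul_eq_zero, Int.cast_eq_zero]
  constructor
  · rintro (h2 | h2)
    · exact absurd h2 hb
    · exact h2
  · exact Or.inr

/-- A field generated by the roots of finitely many rational polynomials is the splitting field of an
integral polynomial, divisible by integral multiples of all of them. -/
theorem exists_SF {ι : Type} [Fintype ι] (P : ι → ℚ[X]) (hP : ∀ i, P i ≠ 0) :
    ∃ (Q : ι → ℤ[X]) (b : ι → ℤ), (∀ i, b i ≠ 0) ∧
      (∀ i, (Q i).map (algebraMap ℤ ℚ) = b i • P i) ∧ (∏ i, Q i) ≠ 0 ∧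
      IntermediateField.adjoin ℚ {z : ℂ | ∃ i, aeval z (P i) = 0} = SF (∏ i, Q i) := by
  choose Q b hb hQ using fun i => exists_int (P i)
  have hinj : Function.Injective (algebraMap ℤ ℚ) := (algebraMap ℤ ℚ).injective_int
  have hQ0 : ∀ i, Q i ≠ 0 := by
    intro i h0
    have h1 := hQ i
    rw [h0, Polynomial.map_zero] at h1
    rcases smul_eq_zero.1 h1.symm with h2 | h2
    · exact hb i h2
    · exact hP i h2
  have hprod : (∏ i, Q i) ≠ 0 := Finset.prod_ne_zero_iff.2 fun i _ => hQ0 i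
  refine ⟨Q, b, hb, hQ, hprod, ?_⟩
  unfold SF
  congr 1
  ext z
  have h1 : ∀ R : ℤ[X], aeval z (R.map (algebraMap ℤ ℚ)) = aeval z R := fun R =>
    aeval_map_algebraMap ℚ z R
  rw [mem_rootSet, h1, map_prod, Finset.prod_eq_zero_iff]
  simp only [Finset.mem_univ, true_and]
  constructor
  · rintro ⟨i, hi⟩
    exact ⟨(Polynomial.map_ne_zero_iff hinj).2 hprod, i, (aeval_int (hb i) (hQ i) z).2 hi⟩
  · rintro ⟨-, i, hi⟩
    exact ⟨i, (aeval_int (hb i) (hQ i) z).1 hi⟩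

section sys

variable {ι : Type} [Fintype ι] [DecidableEq ι] {n : ι → ℕ} {Γ : Type} [Group Γ]

/-- The lifting property gives conjugate quotients. -/
theorem invConj_of_lift {ℓ : ℕ} [Fact ℓ.Prime] {ρ : Reps Γ n ℓ} {γ : Γ} {P : ι → ℚ[X]}
    {Q : ι → ℤ[X]} {b : ι → ℤ} (hb : ∀ i, b i ≠ 0)
    (hQ : ∀ i, (Q i).map (algebraMap ℤ ℚ) = b i • P i) (hQ0 : (∏ i, Q i) ≠ 0)
    (hchar : ∀ i, (ρ i γ).charpoly = (P i).map (algebraMap ℚ ℚ_[ℓ]))
    (hpure : ∀ i, ∃ c : ℝ, ∀ z : ℂ, aeval z (P i) = 0 → ‖z‖ ^ 2 = c)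
    (hlift : ConjLift (∏ i, Q i) ℓ) : InvConj ρ γ := by
  intro i x y hx hy
  obtain ⟨c, hc⟩ := hpure i
  rw [hchar, aeval_map_algebraMap] at hx hy
  exact quot_conj hQ0 hlift (Finset.dvd_prod_of_mem _ (Finset.mem_univ i))
    (fun z hz => hc z ((aeval_int (hb i) (hQ i) z).1 hz)) ((aeval_int (hb i) (hQ i) x).2 hx)
    ((aeval_int (hb i) (hQ i) y).2 hy)

theorem ne_zero_of_char {ρ : ∀ (ℓ : ℕ) [Fact ℓ.Prime], Reps Γ n ℓ} {γ : Γ} {P : ι → ℚ[X]}
    {bad : Finset ℕ} (hchar : ∀ (ℓ : ℕ) [Fact ℓ.Prime], ℓ ∉ bad → ∀ i,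
      (ρ ℓ i γ).charpoly = (P i).map (algebraMap ℚ ℚ_[ℓ])) (i : ι) : P i ≠ 0 := by
  obtain ⟨ℓ, hℓ, h1⟩ := Nat.exists_infinite_primes (bad.sup id + 1)
  have : Fact ℓ.Prime := ⟨h1⟩
  have h2 : ℓ ∉ bad := fun h3 => by
    have h4 := Finset.le_sup (f := id) h3
    simp only [id] at h4
    omega
  have h3 := hchar ℓ h2 i
  intro h4
  rw [h4, Polynomial.map_zero] at h3
  exact (LinearMap.charpoly_monic (ρ ℓ i γ)).ne_zero h3

end sys

end Pool.Agent.H853.CC
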