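import Pool.Agent.H853.CC.Local

/-!
# The determinant of a Frobenius element on a stable subspace of the motivic Lie algebra

The determinant of a Frobenius element, acting by conjugation on a subspace of the Lie algebra which is
stable under the Galois group, is a root of unity.  (The first half of the proof of `gal_main` in
`NH34.BD.Gal`, for arbitrary stable subspaces.)
-/

set_option autoImplicit false
set_option linter.unusedSectionVars false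
set_option linter.unusedVariables false

namespace Pool.Agent.H853.CC

open Pool.Agent

open NumberField IsDedekindDomain Module Polynomial TensorProduct Pool.Agent.TH118.SG
  Pool.Agent.Y114.MU Pool.Agent.Y114.TF Pool.Agent.Y114.GF Pool.Agent.H204R3.GP
open Pool.Agent.W569.FM Pool.Agent.W571.FM Pool.Agent.Y115.R Pool.Agent.Y115.T Pool.Agent.Y115.Chi
open Pool.Agent.Y114.RM Pool.Agent.Y212.RM Pool.Agent.NH34.BD Pool.Agent.H853.SR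

section main

variable {F : Type} [Field F] [NumberField F] {ι : Type} [Fintype ι] [DecidableEq ι] {n : ι → ℕ}
  {w : ι → ℤ} {ℓ : ℕ} [hℓ : Fact ℓ.Prime] {Γ : Type} [Group Γ] [TopologicalSpace Γ]
  [IsTopologicalGroup Γ] [CompactSpace Γ]

theorem det_torsion (h : Inputs) (h2 : Inputs2) (ρ : Reps Γ n ℓ) (hρ : Conts ρ)
    (s : Gal(AlgebraicClosure F/F) →* Γ) (hs : Continuous s)
    (𝔤 : Submodule ℚ_[ℓ] (End ℚ_[ℓ] (∀ i, Fin (n i) → ℚ_[ℓ]))) (h𝔤 : IsMotivic ρ 𝔤)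
    (P : HeightOneSpectrum (𝓞 F) → ι → ℚ[X])
    (T : Set ℕ) (hT3 : 3 ≤ T.encard) (hT : ∀ p ∈ T, p.Prime ∧ p ≠ ℓ ∧ UnramifiedIn F p)
    (hgood : ∀ p ∈ T, ∀ v, Above v p → GoodPlace (restrictTo ρ s) w v (P v))
    {p₀ : ℕ} (hp₀ : p₀ ∈ T) (hind₀ : IndependentPlaces P p₀) {v₀ : HeightOneSpectrum (𝓞 F)}
    (hv₀ : Above v₀ p₀) (σ : Gal(AlgebraicClosure F/F))
    (hσ : ∃ Q, PrimeOver Q v₀ ∧ IsFrobAt Q (q v₀) σ)
    {L : Submodule ℚ_[ℓ] (End ℚ_[ℓ] (∀ i, Fin (n i) → ℚ_[ℓ]))} (hLG : L ≤ 𝔤)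
    (hAd : ∀ γ, ∀ X ∈ L, AdE (sumRep ρ γ) (sumRep ρ γ⁻¹) X ∈ L) :
    ∃ m : ℕ, 0 < m ∧ detOn L (AdE (sumRep ρ (s σ)⁻¹) (sumRep ρ ((s σ)⁻¹)⁻¹))
      (hAd (s σ)⁻¹) ^ m = 1 := by
  classical
  obtain ⟨j, hj⟩ := exists_j ℓ ℚ_[ℓ] ℚ (algebraMap ℚ ℚ_[ℓ]) (algebraMap ℚ ℂ)
  let _ : Algebra ℚ_[ℓ] ℂ := j.toAlgebra
  have hjalg : ∀ x : ℚ_[ℓ], algebraMap ℚ_[ℓ] ℂ x = j x := fun _ => rfl
  obtain ⟨ψ', hψc', hψ'⟩ := h.cont ℓ ι n _ ρ hρ L hAd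
  let ψ : GF F →* ℚ_[ℓ]ˣ := ψ'.comp s
  have hψc : Continuous ψ := hψc'.comp hs
  have hψ : ∀ γ, (ψ γ : ℚ_[ℓ]) = detOn L (AdE (sumRep ρ (s γ)) (sumRep ρ (s γ)⁻¹)) (hAd (s γ)) :=
    fun γ => hψ' (s γ)
  -- Frobenius elements
  have hfr₀ : ∀ v : HeightOneSpectrum (𝓞 F), ∃ (Q : Ideal (OO F)) (σ : GF F), Q.IsMaximal ∧
      cm Q = v.asIdeal ∧ FrobAt (Ideal.absNorm v.asIdeal) Q σ := fun v => frob_cm v
  choose Q₀ σ₀ hQ₀ hQ₀v hσ₀ using hfr₀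
  have hinv : ∀ g : GF F, (ψ g⁻¹ : ℚ_[ℓ]) = (ψ g : ℚ_[ℓ])⁻¹ := by
    intro g
    rw [map_inv, Units.val_inv_eq_inv_val]
  -- places of good reduction
  have hgoodin : ∀ v : HeightOneSpectrum (𝓞 F), ∀ P', GoodPlace (restrictTo ρ s) w v P' →
      (∀ Q : Ideal (OO F), Q.IsPrime → cm Q = v.asIdeal → ∀ g, InInertia Q g → ψ g = 1) ∧
      IsAlgebraic ℚ (ψ (σ₀ v) : ℚ_[ℓ]) ∧ ‖j (ψ (σ₀ v) : ℚ_[ℓ])‖ = 1 ∧
      ∃ u ∈ ratioGroup P', (u : ℂ) = j (ψ (σ₀ v)⁻¹ : ℚ_[ℓ]) := by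
    rintro v P' hP'
    refine ⟨fun Q hQ hQv g hg => ?_, ?_⟩
    · apply Units.ext
      rw [hψ, Units.val_one]
      have h1 : sumRep ρ (s g) = 1 := by
        rw [← map_one (sumRep ρ)]
        refine sumRep_congr ρ fun i => ?_
        rw [map_one]
        exact hP'.unramified i Q ⟨hQ, hQv⟩ g hg
      have h2 : sumRep ρ (s g)⁻¹ = 1 := by
        have h3 := Y114.RM.rho_mul_inv (sumRep ρ) (s g)
        rwa [h1, one_mul] at h3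
      have h3 : ∀ (a b : End ℚ_[ℓ] (∀ i, Fin (n i) → ℚ_[ℓ])) (hab : ∀ X ∈ L, AdE a b X ∈ L),
          a = 1 → b = 1 → detOn L (AdE a b) hab = 1 := by
        rintro a b hab rfl rfl
        exact detOn_one hab
      exact h3 _ _ _ h1 h2
    · have hfr : ∀ i, (ρ i (s (σ₀ v))⁻¹).charpoly = (P' i).map (algebraMap ℚ ℚ_[ℓ]) := by
        intro i
        have h1 := hP'.frobenius i (Q₀ v) ⟨(hQ₀ v).isPrime, hQ₀v v⟩ (σ₀ v) (hσ₀ v)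
        rw [← h1, ← map_inv]
        rfl
      obtain ⟨h1, h3⟩ := h.adw ℓ j ι n (sumRep ρ (s (σ₀ v))⁻¹) (sumRep ρ ((s (σ₀ v))⁻¹)⁻¹)
        (fun i => ρ i (s (σ₀ v))⁻¹) P' (fun i => (q v : ℝ) ^ w i) (Y114.RM.rho_mul_inv _ _)
        (Y114.RM.rho_inv_mul _ _) (fun _ _ => rfl) hfr
        hP'.pure L (fun X hX => h𝔤.parts X (hLG hX)) (hAd _)
      obtain ⟨u, hu, hu'⟩ := h2.ratio ℓ j ι n (sumRep ρ (s (σ₀ v))⁻¹)
        (sumRep ρ ((s (σ₀ v))⁻¹)⁻¹)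
        (fun i => ρ i (s (σ₀ v))⁻¹) P' (Y114.RM.rho_mul_inv _ _) (Y114.RM.rho_inv_mul _ _)
        (fun _ _ => rfl) hfr
        L (fun X hX => h𝔤.parts X (hLG hX)) (hAd _)
      have hψ2 : (ψ (σ₀ v)⁻¹ : ℚ_[ℓ]) = detOn L (AdE (sumRep ρ (s (σ₀ v))⁻¹)
          (sumRep ρ ((s (σ₀ v))⁻¹)⁻¹)) (hAd _) := by
        have h4 := hψ' (s (σ₀ v))⁻¹
        rw [← h4, ← map_inv s]
        rfl
      rw [← hψ2] at h1 h3 hu'
      refine ⟨?_, ?_, u, hu, hu'⟩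
      · rw [hinv] at h1
        exact IsAlgebraic.inv_iff.1 h1
      · rw [hinv, map_inv₀, norm_inv, inv_eq_one] at h3
        exact h3
  -- the character is a root of unity at `v₀`
  have htor : ∃ m : ℕ, 0 < m ∧ (algebraMap ℚ_[ℓ] ℂ (detOn L (AdE (sumRep ρ (s (σ₀ v₀))⁻¹)
      (sumRep ρ ((s (σ₀ v₀))⁻¹)⁻¹)) (hAd (s (σ₀ v₀))⁻¹))) ^ m = 1 := by
    obtain ⟨M, hM, S, hS, hprod⟩ := prod_torsion ψ hψc T hT3 hT (fun v => ψ (σ₀ v)) (by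
      intro p hp v hv Q hQ hQv
      have hin := (hgoodin v (P v) (hgood p hp v hv)).1
      exact ⟨hin Q hQ hQv, fun φ hφ => frob_value ψ v hin (hQ₀ v).isPrime hQ (hQ₀v v) hQv (hσ₀ v)
        hφ⟩) (fun p hp v hv => (hgoodin v (P v) (hgood p hp v hv)).2.1) j
      (fun p hp v hv => (hgoodin v (P v) (hgood p hp v hv)).2.2.1) p₀ hp₀
    have hu : ∀ v : HeightOneSpectrum (𝓞 F), ∃ u : ℂˣ, Above v p₀ →
        u ∈ ratioGroup (P v) ∧ (u : ℂ) = j (ψ (σ₀ v)⁻¹ : ℚ_[ℓ]) := by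
      intro v
      by_cases hv : Above v p₀
      · obtain ⟨u, hu, hu'⟩ := (hgoodin v (P v) (hgood p₀ hp₀ v hv)).2.2.2
        exact ⟨u, fun _ => ⟨hu, hu'⟩⟩
      · exact ⟨1, fun h => absurd h hv⟩
    choose u hu using hu
    obtain ⟨m, hm, hm'⟩ := hind₀ u (fun v hv => (hu v hv).1) ⟨M, hM, by
      have h3 : (∏ᶠ (v : HeightOneSpectrum (𝓞 F)) (_ : Above v p₀), u v) = ∏ v ∈ S, u v :=
        finprod_cond_eq_prod_of_cond_iff _ fun {v} _ => (hS v).symm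
      rw [h3]
      apply Units.ext
      rw [Units.val_pow_eq_pow_val, Units.coe_prod, Units.val_one]
      have h4 : ∏ v ∈ S, (u v : ℂ) = (j (((∏ v ∈ S, ψ (σ₀ v) : ℚ_[ℓ]ˣ)) : ℚ_[ℓ]))⁻¹ := by
        rw [Units.coe_prod, map_prod, ← Finset.prod_inv_distrib]
        refine Finset.prod_congr rfl fun v hv => ?_
        rw [(hu v ((hS v).1 hv)).2, hinv, map_inv₀]
      rw [h4, inv_pow, ← map_pow, ← Units.val_pow_eq_pow_val, hprod, Units.val_one, map_one,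
        inv_one]⟩ v₀ hv₀
    refine ⟨m, hm, ?_⟩
    have hψ2 : (ψ (σ₀ v₀)⁻¹ : ℚ_[ℓ]) = detOn L (AdE (sumRep ρ (s (σ₀ v₀))⁻¹)
        (sumRep ρ ((s (σ₀ v₀))⁻¹)⁻¹)) (hAd _) := by
      have h4 := hψ' (s (σ₀ v₀))⁻¹
      rw [← h4, ← map_inv s]
      rfl
    rw [← hψ2, hjalg, ← (hu v₀ hv₀).2, ← Units.val_pow_eq_pow_val, hm', Units.val_one]
  obtain ⟨Q, hQ, hQσ⟩ := hσ
  obtain ⟨m, hm, hm'⟩ := htor
  have hin := (hgoodin v₀ (P v₀) (hgood p₀ hp₀ v₀ hv₀)).1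
  have h3 : ψ σ = ψ (σ₀ v₀) := frob_value ψ v₀ hin (hQ₀ v₀).isPrime hQ.1 (hQ₀v v₀) hQ.2 (hσ₀ v₀)
    hQσ
  have h4 : ∀ τ : GF F, (ψ τ⁻¹ : ℚ_[ℓ]) = detOn L (AdE (sumRep ρ (s τ)⁻¹)
      (sumRep ρ ((s τ)⁻¹)⁻¹)) (hAd _) := by
    intro τ
    have h5 := hψ' (s τ)⁻¹
    rw [← h5, ← map_inv s]
    rfl
  have h5 : detOn L (AdE (sumRep ρ (s σ)⁻¹) (sumRep ρ ((s σ)⁻¹)⁻¹)) (hAd _) =
      detOn L (AdE (sumRep ρ (s (σ₀ v₀))⁻¹) (sumRep ρ ((s (σ₀ v₀))⁻¹)⁻¹)) (hAd _) := by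
    rw [← h4, ← h4, map_inv, map_inv, h3]
  refine ⟨m, hm, ?_⟩
  rw [h5]
  apply (algebraMap ℚ_[ℓ] ℂ).injective
  rw [map_pow, hm', map_one]

end main

end Pool.Agent.H853.CC
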