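import Pool.Agent.H853.CC.Local

/-!
# Normalizers of nilpotent subalgebras

`G` is the Lie algebra of a tensor stabilizer, `U` a Lie algebra of nilpotent endomorphisms in `G`, and
`norm G U` its normalizer in `G`.  The radical of the trace form of the normalizer consists of nilpotent
endomorphisms and contains `U`.
-/

set_option autoImplicit false
set_option linter.unusedSectionVars false

namespace Pool.Agent.H853.CC

open Module TensorProduct Polynomial Pool.Agent.TH118.SG Pool.Agent.Y114.RM Pool.Agent.Y86.RM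
  Pool.Agent.Y914.RM Pool.Agent.Y212.RM Pool.Agent.NH34.BD Pool.Agent.Y114.MU Pool.Agent.H204R3.GP
  Pool.Agent.H853.SR

section norm

variable {k : Type} [Field k] {V : Type} [AddCommGroup V] [Module k V]

/-- The normalizer of `U` in `G`. -/
def norm (G U : Submodule k (End k V)) : Submodule k (End k V) where
  carrier := {X | X ∈ G ∧ ∀ Y ∈ U, X * Y - Y * X ∈ U}
  add_mem' := by
    rintro a b ⟨ha, ha'⟩ ⟨hb, hb'⟩
    refine ⟨G.add_mem ha hb, fun Y hY => ?_⟩
    have h1 : (a + b) * Y - Y * (a + b) = (a * Y - Y * a) + (b * Y - Y * b) := by noncomm_ring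
    rw [h1]
    exact U.add_mem (ha' Y hY) (hb' Y hY)
  zero_mem' := ⟨G.zero_mem, fun Y _ => by rw [zero_mul, mul_zero, sub_zero]; exact U.zero_mem⟩
  smul_mem' := by
    rintro c a ⟨ha, ha'⟩
    refine ⟨G.smul_mem c ha, fun Y hY => ?_⟩
    have h1 : (c • a) * Y - Y * (c • a) = c • (a * Y - Y * a) := by
      rw [smul_mul_assoc, mul_smul_comm, smul_sub]
    rw [h1]
    exact U.smul_mem c (ha' Y hY)

theorem norm_le (G U : Submodule k (End k V)) : norm G U ≤ G := fun _ h => h.1

theorem norm_lie {G U : Submodule k (End k V)} (hG : IsLie G) : IsLie (norm G U) := by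
  rintro X ⟨hX, hX'⟩ Z ⟨hZ, hZ'⟩
  refine ⟨hG X hX Z hZ, fun Y hY => ?_⟩
  have h1 : (X * Z - Z * X) * Y - Y * (X * Z - Z * X) =
      (X * (Z * Y - Y * Z) - (Z * Y - Y * Z) * X) - (Z * (X * Y - Y * X) - (X * Y - Y * X) * Z) := by
    noncomm_ring
  rw [h1]
  exact U.sub_mem (hX' _ (hZ' Y hY)) (hZ' _ (hX' Y hY))

theorem le_norm {G U : Submodule k (End k V)} (hUG : U ≤ G) (hU : IsLie U) : U ≤ norm G U :=
  fun X hX => ⟨hUG hX, fun Y hY => hU X hX Y hY⟩

theorem norm_stable {G U : Submodule k (End k V)} {g g' : End k V} (h1 : g * g' = 1)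
    (hG : ∀ X ∈ G, AdE g g' X ∈ G) (hU : ∀ X ∈ U, AdE g g' X ∈ U)
    (hU' : ∀ X ∈ U, AdE g' g X ∈ U) : ∀ X ∈ norm G U, AdE g g' X ∈ norm G U := by
  rintro X ⟨hX, hX'⟩
  refine ⟨hG X hX, fun Y hY => ?_⟩
  have h3 := hU _ (hX' _ (hU' Y hY))
  rw [AdE_apply, AdE_apply] at h3
  rw [AdE_apply]
  have h4 : g * ((X * (g' * (Y * g)) - g' * (Y * g) * X) * g') =
      g * (X * g') * Y * (g * g') - (g * g') * Y * (g * (X * g')) := by noncomm_ring
  rw [h4, h1, mul_one, one_mul] at h3
  exact h3

end norm

section cs

variable {K : Type} [Field K] {W : Type} [AddCommGroup W] [Module K W]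

theorem csr (c : K) (X Y : End K W) : X * (c • Y) - (c • Y) * X = c • (X * Y - Y * X) := by
  rw [mul_smul_comm, smul_mul_assoc, ← smul_sub]

theorem csl (c : K) (X Y : End K W) : (c • X) * Y - Y * (c • X) = c • (X * Y - Y * X) := by
  rw [mul_smul_comm, smul_mul_assoc, ← smul_sub]

theorem czr (X : End K W) : X * 0 - 0 * X = 0 := by
  rw [mul_zero, zero_mul, sub_zero]

theorem czl (X : End K W) : 0 * X - X * 0 = 0 := by
  rw [mul_zero, zero_mul, sub_zero]

end cs

section base

variable {k : Type} [Field k] {C : Type} [Field C] [Algebra k C] {V : Type} [AddCommGroup V]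
  [Module k V] [FiniteDimensional k V]

theorem pM_comm (π : C →ₗ[k] k) (X : End C (C ⊗[k] V)) (Y : End k V) :
    (pM π (X * Y.baseChange C - Y.baseChange C * X) : End k V) = pM π X * Y - Y * pM π X := by
  have h1 : (pM π (X * Y.baseChange C - Y.baseChange C * X) : End k V) =
      pM π (X * Y.baseChange C) - pM π (Y.baseChange C * X) := by
    refine LinearMap.ext fun v => ?_
    rw [pM_apply, LinearMap.sub_apply, map_sub, LinearMap.sub_apply, pM_apply, pM_apply]
  rw [h1, Pool.Agent.Y114.RM.pM_mul_bc, Pool.Agent.Y114.RM.pM_bc_mul]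

/-- The base change of the normalizer. -/
theorem mem_bcS_norm {G U : Submodule k (End k V)} {X : End C (C ⊗[k] V)} :
    X ∈ bcS C (norm G U) ↔ X ∈ bcS C G ∧ ∀ Y ∈ bcS C U, X * Y - Y * X ∈ bcS C U := by
  constructor
  · intro hX
    refine ⟨bcS_mono (norm_le G U) hX, fun Y hY => ?_⟩
    induction hX using Submodule.span_induction with
    | mem X hX =>
      obtain ⟨Z, hZ, rfl⟩ := hX
      induction hY using Submodule.span_induction with
      | mem Y hY =>
        obtain ⟨Z', hZ', rfl⟩ := hY
        have h1 : (Z.baseChange C : End C (C ⊗[k] V)) * Z'.baseChange C -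
            Z'.baseChange C * Z.baseChange C = (Z * Z' - Z' * Z).baseChange C := by
          rw [← bc_mul, ← bc_mul, LinearMap.baseChange_sub]
        rw [h1]
        exact mem_bcS (hZ.2 Z' hZ')
      | zero =>
        have h1 := czr (W := C ⊗[k] V) (Z.baseChange C)
        rw [h1]
        exact Submodule.zero_mem _
      | add a b _ _ ha hb =>
        have h1 : (Z.baseChange C : End C (C ⊗[k] V)) * (a + b) - (a + b) * Z.baseChange C =
            (Z.baseChange C * a - a * Z.baseChange C) +
              (Z.baseChange C * b - b * Z.baseChange C) := by noncomm_ring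
        rw [h1]
        exact Submodule.add_mem _ ha hb
      | smul c a _ ha =>
        have h1 := csr (W := C ⊗[k] V) c (Z.baseChange C) a
        rw [h1]
        exact Submodule.smul_mem _ c ha
    | zero =>
      have h1 := czl (W := C ⊗[k] V) Y
      rw [h1]
      exact Submodule.zero_mem _
    | add a b _ _ ha hb =>
      have h1 : (a + b) * Y - Y * (a + b) = (a * Y - Y * a) + (b * Y - Y * b) := by noncomm_ring
      rw [h1]
      exact Submodule.add_mem _ ha hb
    | smul c a _ ha =>
      have h1 := csl (W := C ⊗[k] V) c a Y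
      rw [h1]
      exact Submodule.smul_mem _ c ha
  · rintro ⟨hX, hX'⟩
    rw [(Pool.Agent.Y809.RM.BC.bc k C V (norm G U)).1]
    intro π
    refine ⟨((Pool.Agent.Y809.RM.BC.bc k C V G).1 X).1 hX π, fun Y hY => ?_⟩
    rw [← pM_comm]
    exact ((Pool.Agent.Y809.RM.BC.bc k C V U).1 _).1 (hX' _ (mem_bcS hY)) π

end base

section ad

variable {K : Type} [Field K] [CharZero K] [IsAlgClosed K] {W : Type} [AddCommGroup W] [Module K W]
  [FiniteDimensional K W]

/-- The commutator with `X`. -/
def ad (X : End K W) : End K (End K W) where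
  toFun Y := X * Y - Y * X
  map_add' Y Z := by noncomm_ring
  map_smul' c Y := by
    rw [mul_smul_comm, smul_mul_assoc, ← smul_sub]
    rfl

theorem ad_apply (X Y : End K W) : ad X Y = X * Y - Y * X := rfl

theorem ad_gen_aux (X : End K W) {c β : K} : ∀ (k m n : ℕ) (Y : End K W) (v : W), m + n ≤ k →
    ((ad X - algebraMap K (End K (End K W)) c) ^ m) Y = 0 →
    ((X - algebraMap K (End K W) β) ^ n) v = 0 →
    ((X - algebraMap K (End K W) (c + β)) ^ k) (Y v) = 0 := by
  intro k
  induction k with
  | zero =>
    intro m n Y v hmn hY _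
    have h1 : m = 0 := by omega
    rw [h1, pow_zero, Module.End.one_apply] at hY
    rw [hY, LinearMap.zero_apply, map_zero]
  | succ k ih =>
    intro m n Y v hmn hY hv
    rcases m with _ | m
    · rw [pow_zero, Module.End.one_apply] at hY
      rw [hY, LinearMap.zero_apply, map_zero]
    rcases n with _ | n
    · rw [pow_zero, Module.End.one_apply] at hv
      rw [hv, map_zero, map_zero]
    have e1 : (X - algebraMap K (End K W) (c + β)) (Y v) =
        ((ad X - algebraMap K (End K (End K W)) c) Y) v +
          Y ((X - algebraMap K (End K W) β) v) := by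
      have h2 : (ad X - algebraMap K (End K (End K W)) c) Y = X * Y - Y * X - c • Y := rfl
      rw [h2, LinearMap.sub_apply, LinearMap.sub_apply, LinearMap.sub_apply, LinearMap.sub_apply,
        Module.algebraMap_end_apply, Module.algebraMap_end_apply, Module.End.mul_apply,
        Module.End.mul_apply, LinearMap.smul_apply, map_sub, map_smul, add_smul]
      abel
    rw [pow_succ, Module.End.mul_apply, e1, map_add]
    rw [ih m (n + 1) _ v (by omega) (by rw [← Module.End.mul_apply, ← pow_succ]; exact hY) hv,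
      ih (m + 1) n Y _ (by omega) hY (by rw [← Module.End.mul_apply, ← pow_succ]; exact hv),
      add_zero]

theorem ad_gen {X : End K W} {c β : K} {Y : End K W} {v : W}
    (hY : Y ∈ (ad X).maxGenEigenspace c) (hv : v ∈ X.maxGenEigenspace β) :
    Y v ∈ X.maxGenEigenspace (c + β) := by
  obtain ⟨m, hm⟩ := mem_gen.1 hY
  obtain ⟨n, hn⟩ := mem_gen.1 hv
  exact mem_gen.2 ⟨m + n, ad_gen_aux X (m + n) m n Y v le_rfl hm hn⟩

/-- The commutator with a replica is the replica of the commutator. -/
theorem repl_ad {φ : K →+ K} {X s : End K W} (hs : IsRepl φ X s) : IsRepl φ (ad X) (ad s) := by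
  intro c Y hY
  refine op_ext X fun β v hv => ?_
  rw [ad_apply, LinearMap.sub_apply, Module.End.mul_apply, Module.End.mul_apply, hs β v hv,
    hs _ _ (ad_gen hY hv), map_smul, LinearMap.smul_apply, map_add, add_smul, add_sub_cancel_right]

end ad

section main

variable {k : Type} [Field k] [CharZero k] {V : Type} [AddCommGroup V] [Module k V]
  [FiniteDimensional k V]

/-- The normalizer contains the replicas of its elements. -/
theorem repl_norm {C : Type} [Field C] [CharZero C] [IsAlgClosed C] [Algebra k C]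
    {G U : Submodule k (End k V)} (hG : Closed G) {x : End C (C ⊗[k] V)}
    (hx : x ∈ bcS C (norm G U)) {φ : C →+ C} {s : End C (C ⊗[k] V)} (hs : IsRepl φ x s) :
    s ∈ bcS C (norm G U) := by
  rw [mem_bcS_norm] at hx ⊢
  exact ⟨repl_mem hG hx.1 hs, repl_stable (repl_ad hs) hx.2⟩

/-- The radical of the trace form of the normalizer consists of nilpotent endomorphisms. -/
theorem nil_norm (C : Type) [Field C] [CharZero C] [IsAlgClosed C] [Algebra k C]
    {G U : Submodule k (End k V)} (hG : Closed G) : ∀ X ∈ radOf (norm G U), IsNilpotent X := by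
  intro X hX
  have h1 : IsNilpotent (X.baseChange C : End C (C ⊗[k] V)) := by
    refine nil_of_repl fun φ s hs => ?_
    exact rad_orth (G := norm G U) (mem_bcS hX) (repl_norm hG (mem_bcS hX.1) hs)
  obtain ⟨n, hn⟩ := h1
  refine ⟨n, Pool.Agent.Y114.RM.bc_inj (C := C) ?_⟩
  rw [bc_pow] at hn
  rw [hn]
  exact (LinearMap.baseChange_zero ..).symm

end main

section engel

variable {K : Type} [Field K] {V : Type} [AddCommGroup V] [Module K V] [FiniteDimensional K V]

attribute [local instance 100] LieRing.ofAssociativeRing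

/-- The descending filtration. -/
def fil (U : Submodule K (End K V)) : ℕ → Submodule K V
  | 0 => ⊤
  | m + 1 => Submodule.span K {w | ∃ X ∈ U, ∃ v ∈ fil U m, w = X v}

theorem fil_stable {U : Submodule K (End K V)} {Y : End K V} (hY : ∀ X ∈ U, Y * X - X * Y ∈ U) :
    ∀ m, ∀ v ∈ fil U m, Y v ∈ fil U m := by
  intro m
  induction m with
  | zero => intro v _; trivial
  | succ m ih =>
    intro v hv
    induction hv using Submodule.span_induction with
    | mem w hw =>
      obtain ⟨X, hX, v, hv, rfl⟩ := hw
      have h1 : Y (X v) = X (Y v) + (Y * X - X * Y) v := by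
        rw [LinearMap.sub_apply, Module.End.mul_apply, Module.End.mul_apply]
        abel
      rw [h1]
      exact Submodule.add_mem _ (Submodule.subset_span ⟨X, hX, _, ih v hv, rfl⟩)
        (Submodule.subset_span ⟨_, hY X hX, v, hv, rfl⟩)
    | zero => rw [map_zero]; exact Submodule.zero_mem _
    | add a b _ _ ha hb => rw [map_add]; exact Submodule.add_mem _ ha hb
    | smul c a _ ha => rw [map_smul]; exact Submodule.smul_mem _ c ha

/-- The theorem of Engel. -/
theorem fil_bot {U : Submodule K (End K V)} (hU : IsLie U) (hnil : ∀ X ∈ U, IsNilpotent X) :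
    ∃ m, fil U m = ⊥ := by
  let R' : LieSubalgebra K (End K V) := { U with lie_mem' := fun {X Y} hX hY => hU X hX Y hY }
  have h1 : LieModule.IsNilpotent R' V := by
    rw [LieModule.isNilpotent_iff_forall' (R := K)]
    intro X
    obtain ⟨n, hn⟩ := hnil X.1 X.2
    exact ⟨n, hn⟩
  obtain ⟨m, hm⟩ := (LieModule.isNilpotent_iff K R' V).1 h1
  refine ⟨m, ?_⟩
  have h2 : ∀ m, ∀ v ∈ fil U m, v ∈ LieModule.lowerCentralSeries K R' V m := by
    intro m
    induction m with
    | zero => intro v _; exact LieSubmodule.mem_top v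
    | succ m ih =>
      intro v hv
      induction hv using Submodule.span_induction with
      | mem w hw =>
        obtain ⟨X, hX, v, hv, rfl⟩ := hw
        rw [LieModule.lowerCentralSeries_succ]
        exact LieSubmodule.lie_mem_lie (LieSubmodule.mem_top (⟨X, hX⟩ : R')) (ih v hv)
      | zero => exact zero_mem _
      | add a b _ _ ha hb => exact add_mem ha hb
      | smul c a _ ha => exact SMulMemClass.smul_mem c ha
  rw [eq_bot_iff]
  intro v hv
  have h3 := h2 m v hv
  rw [hm] at h3
  exact h3

/-- The product of an element of a nilpotent subalgebra and of an element of its normalizer is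
nilpotent. -/
theorem nil_mul {U : Submodule K (End K V)} (hU : IsLie U) (hnil : ∀ X ∈ U, IsNilpotent X)
    {X Y : End K V} (hX : X ∈ U) (hY : ∀ X ∈ U, Y * X - X * Y ∈ U) : IsNilpotent (X * Y) := by
  obtain ⟨m, hm⟩ := fil_bot hU hnil
  refine ⟨m, LinearMap.ext fun v => ?_⟩
  have h1 : ∀ m v, ((X * Y) ^ m) v ∈ fil U m := by
    intro m
    induction m with
    | zero => intro v; trivial
    | succ m ih =>
      intro v
      rw [pow_succ', Module.End.mul_apply]
      exact Submodule.subset_span ⟨X, hX, _, fil_stable hY m _ (ih v), rfl⟩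
  have h2 := h1 m v
  rw [hm] at h2
  rw [(Submodule.mem_bot K).1 h2, LinearMap.zero_apply]

/-- A nilpotent subalgebra is contained in the radical of the trace form of its normalizer. -/
theorem le_rad_norm {G U : Submodule K (End K V)} (hUG : U ≤ G) (hU : IsLie U)
    (hnil : ∀ X ∈ U, IsNilpotent X) : U ≤ radOf (norm G U) := by
  intro X hX
  refine ⟨le_norm hUG hU hX, fun Y hY => ?_⟩
  exact (LinearMap.isNilpotent_trace_of_isNilpotent (nil_mul hU hnil hX hY.2)).eq_zero

end engel

end Pool.Agent.H853.CC
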