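import Pool.Agent.H853.CC.Det
import Pool.Agent.H853.CC.Norm

/-!
# Semisimplicity, or a stable parabolic subalgebra
-/

set_option autoImplicit false
set_option linter.unusedSectionVars false

namespace Pool.Agent.H853.CC

open Pool.Agent

open NumberField IsDedekindDomain Module Polynomial TensorProduct Pool.Agent.TH118.SG
  Pool.Agent.Y114.MU Pool.Agent.Y114.TF Pool.Agent.Y114.GF Pool.Agent.H204R3.GP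
open Pool.Agent.W569.FM Pool.Agent.W571.FM Pool.Agent.Y115.R Pool.Agent.Y115.T Pool.Agent.Y115.Chi
open Pool.Agent.Y114.RM Pool.Agent.Y212.RM Pool.Agent.NH34.BD Pool.Agent.H853.SR

variable {ι : Type} [Fintype ι] [DecidableEq ι] {n : ι → ℕ}
  {ℓ : ℕ} [hℓ : Fact ℓ.Prime] {Γ : Type} [Group Γ] [TopologicalSpace Γ]
  [IsTopologicalGroup Γ] [CompactSpace Γ]

theorem dichotomy (h : Inputs) (h2 : Inputs2) (ρ : Reps Γ n ℓ) (hρ : Conts ρ)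
    (𝔤 : Submodule ℚ_[ℓ] (End ℚ_[ℓ] (∀ i, Fin (n i) → ℚ_[ℓ]))) (h𝔤 : IsMotivic ρ 𝔤)
    (h𝔤' : ∀ γ, ∀ X ∈ 𝔤, sumRep ρ γ * X * sumRep ρ γ⁻¹ ∈ 𝔤) :
    FiniteIndexSemisimple (sumRep ρ) ∨ ∃ U : Submodule ℚ_[ℓ] (End ℚ_[ℓ] (∀ i, Fin (n i) → ℚ_[ℓ])),
      U ≤ 𝔤 ∧ U ≠ ⊥ ∧ radOf (norm 𝔤 U) = U ∧
      ∀ γ, ∀ X ∈ U, AdE (sumRep ρ γ) (sumRep ρ γ⁻¹) X ∈ U := by
  by_cases hss : FiniteIndexSemisimple (sumRep ρ)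
  · exact Or.inl hss
  right
  obtain ⟨j, hj⟩ := exists_j ℓ ℚ_[ℓ] ℚ (algebraMap ℚ ℚ_[ℓ]) (algebraMap ℚ ℂ)
  let _ : Algebra ℚ_[ℓ] ℂ := j.toAlgebra
  obtain ⟨L, hL, hLie, hAd, -⟩ := h.lie ℚ_[ℓ] (∀ i, Fin (n i) → ℚ_[ℓ]) _ (sumRep ρ)
  have hLG : L ≤ 𝔤 := fun X hX => h𝔤.algebraic X fun m φ hφ => ((hL X).1 hX).2 m φ (h𝔤.tate m φ hφ)
  have hinv : ∀ {M : Submodule ℚ_[ℓ] (End ℚ_[ℓ] (∀ i, Fin (n i) → ℚ_[ℓ]))},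
      (∀ γ, ∀ X ∈ M, AdE (sumRep ρ γ) (sumRep ρ γ⁻¹) X ∈ M) → ∀ γ, ∀ X ∈ M,
      AdE (sumRep ρ γ⁻¹) (sumRep ρ γ) X ∈ M := by
    intro M hM γ X hX
    have h3 := hM γ⁻¹ X hX
    rwa [inv_inv] at h3
  have hG : ∀ γ, ∀ X ∈ 𝔤, AdE (sumRep ρ γ) (sumRep ρ γ⁻¹) X ∈ 𝔤 := by
    intro γ X hX
    rw [AdE_apply, ← mul_assoc]
    exact h𝔤' γ X hX
  have h1 : ∀ γ, sumRep ρ γ * sumRep ρ γ⁻¹ = 1 := rho_mul_inv (sumRep ρ)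
  have hFull : Full L := full_LT (sumRep ρ) hL
  have hne : ¬ NonDeg L := fun hne => hss (semisimple_of_nonDeg h h2 ρ hρ hL hLie hAd hne)
  -- the stable nilpotent subalgebras
  let S : Set (Submodule ℚ_[ℓ] (End ℚ_[ℓ] (∀ i, Fin (n i) → ℚ_[ℓ]))) :=
    {U | U ≤ 𝔤 ∧ IsLie U ∧ (∀ X ∈ U, IsNilpotent X) ∧ U ≠ ⊥ ∧
      ∀ γ, ∀ X ∈ U, AdE (sumRep ρ γ) (sumRep ρ γ⁻¹) X ∈ U}
  have hS : S.Nonempty := by
    refine ⟨radOf L, fun X hX => hLG hX.1, radOf_lie hLie, fun X hX => ?_, fun h0 => hne ?_,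
      fun γ => radOf_stable (hAd γ) (hinv hAd γ)⟩
    · obtain ⟨m, hm⟩ := nil_bc (C := ℂ) hFull _ (mem_bcS hX)
      refine ⟨m, Pool.Agent.Y114.RM.bc_inj (C := ℂ) ?_⟩
      rw [bc_pow] at hm
      rw [hm]
      exact (LinearMap.baseChange_zero ..).symm
    · intro X hX hXY
      have h3 : X ∈ radOf L := ⟨hX, hXY⟩
      rw [h0] at h3
      exact (Submodule.mem_bot _).1 h3
  obtain ⟨U, hU, hmax⟩ := (set_has_maximal_iff_noetherian.2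
    (inferInstance : IsNoetherian ℚ_[ℓ] (End ℚ_[ℓ] (∀ i, Fin (n i) → ℚ_[ℓ])))) S hS
  obtain ⟨hU1, hU2, hU3, hU4, hU5⟩ := hU
  have hle : U ≤ radOf (norm 𝔤 U) := le_rad_norm hU1 hU2 hU3
  have hnst : ∀ γ, ∀ X ∈ norm 𝔤 U, AdE (sumRep ρ γ) (sumRep ρ γ⁻¹) X ∈ norm 𝔤 U := fun γ =>
    norm_stable (h1 γ) (hG γ) (hU5 γ) (hinv hU5 γ)
  have hmem : radOf (norm 𝔤 U) ∈ S := by
    refine ⟨fun X hX => hX.1.1, radOf_lie (norm_lie h𝔤.bracket), nil_norm ℂ h𝔤.algebraic,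
      fun h0 => hU4 (le_bot_iff.1 (hle.trans h0.le)),
      fun γ => radOf_stable (hnst γ) (hinv hnst γ)⟩
  have heq : radOf (norm 𝔤 U) = U := by
    by_contra h3
    exact hmax _ hmem (lt_of_le_of_ne hle (Ne.symm h3))
  exact ⟨U, hU1, hU4, heq, hU5⟩

end Pool.Agent.H853.CC
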