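import Pool.Agent.H853.SR.Fin

/-!
# The Lie algebra of a representation which is not known to be semisimple

`Full L`: `L` consists of all endomorphisms which preserve the subspaces stable under `L` and kill the
tensors killed by `L`.  The Lie algebra attached to a representation has this property.  It implies
that `L` contains the replicas of its elements, so that the radical of the trace form of `L` consists
of nilpotent endomorphisms; if the radical is zero, the representation is semisimple.
-/

set_option autoImplicit false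
set_option linter.unusedSectionVars false

namespace Pool.Agent.H853.CC

open Module TensorProduct Pool.Agent.TH118.SG Pool.Agent.Y114.RM Pool.Agent.Y86.RM Pool.Agent.Y914.RM
  Pool.Agent.Y212.RM Pool.Agent.NH34.BD Pool.Agent.Y114.MU Pool.Agent.H204R3.GP Pool.Agent.H853.SR
  Pool.Agent.Y114.TF Pool.Agent.Y114.GF

section full

variable {k : Type} [Field k] {V : Type} [AddCommGroup V] [Module k V]

/-- `L` consists of all endomorphisms which preserve the subspaces stable under `L` and kill the
tensors killed by `L`. -/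
def Full (L : Submodule k (End k V)) : Prop :=
  ∀ X, (∀ U : Submodule k V, (∀ Y ∈ L, ∀ u ∈ U, Y u ∈ U) → ∀ u ∈ U, X u ∈ U) →
    (∀ (m : ℕ) (φ : Tensor k V m), (∀ Y ∈ L, KillsTensor Y φ) → KillsTensor X φ) → X ∈ L

theorem kills_add {X Y : End k V} {m : ℕ} {φ : Tensor k V m} (hX : KillsTensor X φ)
    (hY : KillsTensor Y φ) : KillsTensor (X + Y) φ := by
  intro v
  have h3 : ∀ l, φ (Function.update v l (lie (X + Y) (v l))) =
      φ (Function.update v l (lie X (v l))) + φ (Function.update v l (lie Y (v l))) := by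
    intro l
    have h4 : lie (X + Y) = lie X + lie Y := map_add (lieL k V) X Y
    rw [h4, LinearMap.add_apply, MultilinearMap.map_update_add]
  rw [Finset.sum_congr rfl fun l _ => h3 l, Finset.sum_add_distrib, hX v, hY v, add_zero]

theorem kills_zero {m : ℕ} {φ : Tensor k V m} : KillsTensor (0 : End k V) φ := by
  intro v
  refine Finset.sum_eq_zero fun l _ => ?_
  have h4 : lie (0 : End k V) = 0 := map_zero (lieL k V)
  rw [h4, LinearMap.zero_apply, MultilinearMap.map_update_zero]

theorem kills_smul {c : k} {X : End k V} {m : ℕ} {φ : Tensor k V m} (hX : KillsTensor X φ) :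
    KillsTensor (c • X) φ := by
  intro v
  have h3 : ∀ l, φ (Function.update v l (lie (c • X) (v l))) =
      c • φ (Function.update v l (lie X (v l))) := by
    intro l
    have h4 : lie (c • X) = c • lie X := map_smul (lieL k V) c X
    rw [h4, LinearMap.smul_apply, MultilinearMap.map_update_smul]
  rw [Finset.sum_congr rfl fun l _ => h3 l, ← Finset.smul_sum, hX v, smul_zero]

/-- The endomorphisms which kill all tensors killed by `L`. -/
def tcl (L : Submodule k (End k V)) : Submodule k (End k V) where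
  carrier := {X | ∀ (m : ℕ) (φ : Tensor k V m), (∀ Y ∈ L, KillsTensor Y φ) → KillsTensor X φ}
  add_mem' := fun ha hb m φ hφ => kills_add (ha m φ hφ) (hb m φ hφ)
  zero_mem' := fun _ _ _ => kills_zero
  smul_mem' := fun _ _ ha m φ hφ => kills_smul (ha m φ hφ)

theorem closed_tcl (L : Submodule k (End k V)) : Closed (tcl L) := fun _ hX m φ hφ =>
  hX m φ fun _ hY => hY m φ hφ

theorem le_tcl (L : Submodule k (End k V)) : L ≤ tcl L := fun X hX _ _ hφ => hφ X hX

theorem full_LT {Γ : Type} [Group Γ] (ρ : Representation k Γ V) {L : Submodule k (End k V)}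
    (hL : ∀ X, X ∈ L ↔ X ∈ LT ρ) : Full L := by
  intro X h1 h2
  rw [hL]
  refine ⟨fun U hU => h1 U fun Y hY => ((hL Y).1 hY).1 U hU, fun m φ hφ => h2 m φ fun Y hY =>
    ((hL Y).1 hY).2 m φ hφ⟩

end full

section iso

variable {k : Type} [Field k] {C : Type} [Field C] [Algebra k C] {V : Type} [AddCommGroup V]
  [Module k V] [FiniteDimensional k V]

/-- The base change of the radical is orthogonal to the base change. -/
theorem rad_orth {G : Submodule k (End k V)} {X Y : End C (C ⊗[k] V)}
    (hX : X ∈ bcS C (radOf G)) (hY : Y ∈ bcS C G) :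
    LinearMap.trace C (C ⊗[k] V) (X * Y) = 0 := by
  induction hX using Submodule.span_induction with
  | mem X hX =>
    obtain ⟨Z, hZ, rfl⟩ := hX
    induction hY using Submodule.span_induction with
    | mem Y hY =>
      obtain ⟨Z', hZ', rfl⟩ := hY
      rw [← bc_mul, LinearMap.trace_baseChange, hZ.2 Z' hZ', map_zero]
    | zero => rw [mul_zero, map_zero]
    | add a b _ _ ha hb => rw [mul_add, map_add, ha, hb, add_zero]
    | smul c a _ ha => rw [mul_smul_comm, map_smul, ha, smul_zero]
  | zero => rw [zero_mul, map_zero]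
  | add a b _ _ ha hb => rw [add_mul, map_add, ha, hb, add_zero]
  | smul c a _ ha => rw [smul_mul_assoc, map_smul, ha, smul_zero]

end iso

section repl

variable {k : Type} [Field k] [CharZero k] {V : Type} [AddCommGroup V] [Module k V]
  [FiniteDimensional k V]

/-- A replica preserves the stable subspaces. -/
theorem repl_stable {C : Type} [Field C] [CharZero C] [IsAlgClosed C] {E : Type} [AddCommGroup E]
    [Module C E] [FiniteDimensional C E] {x s : End C E} {φ : C →+ C} (hs : IsRepl φ x s)
    {U : Submodule C E} (hU : ∀ u ∈ U, x u ∈ U) : ∀ u ∈ U, s u ∈ U := by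
  intro u hu
  have h1 : U = ⨆ c, U ⊓ x.maxGenEigenspace c :=
    Submodule.eq_iSup_inf_genEigenspace ⊤ hU (Module.End.iSup_maxGenEigenspace_eq_top x)
  have h2 : u ∈ ⨆ c, U ⊓ x.maxGenEigenspace c := by rw [← h1]; exact hu
  induction h2 using Submodule.iSup_induction' with
  | mem c v hv =>
    rw [hs c v hv.2]
    exact U.smul_mem _ hv.1
  | zero => rw [map_zero]; exact U.zero_mem
  | add a b ha hb iha ihb =>
    have ha' : a ∈ U := by rw [h1]; exact ha
    have hb' : b ∈ U := by rw [h1]; exact hb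
    rw [map_add]
    exact U.add_mem (iha ha') (ihb hb')

/-- A full space of endomorphisms contains the replicas of its elements. -/
theorem repl_mem' {C : Type} [Field C] [CharZero C] [IsAlgClosed C] [Algebra k C]
    {G : Submodule k (End k V)} (hG : Full G) {x : End C (C ⊗[k] V)} (hx : x ∈ bcS C G)
    {φ : C →+ C} {s : End C (C ⊗[k] V)} (hs : IsRepl φ x s) : s ∈ bcS C G := by
  rw [(Pool.Agent.Y809.RM.BC.bc k C V G).1]
  intro π
  apply hG
  · intro U hU u hu
    rw [pM_apply]
    refine pv_mem π ?_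
    exact repl_stable hs (fun w hw => bcS_stable hU x hx w hw) _
      (Submodule.tmul_mem_baseChange_of_mem 1 hu)
  · intro m ψ hψ
    have h1 : s ∈ bcS C (tcl G) := repl_mem (closed_tcl G) (bcS_mono (le_tcl G) hx) hs
    exact ((Pool.Agent.Y809.RM.BC.bc k C V (tcl G)).1 s).1 h1 π m ψ hψ

theorem jord' {C : Type} [Field C] [CharZero C] [IsAlgClosed C] [Algebra k C]
    {G : Submodule k (End k V)} (hG : Full G) {x : End C (C ⊗[k] V)} (hx : x ∈ bcS C G) :
    ∃ s ∈ bcS C G, IsSemisimplePart x s := by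
  obtain ⟨s, hs⟩ := exists_repl (AddMonoidHom.id C) x
  refine ⟨s, repl_mem' hG hx hs, ss_part ?_⟩
  intro β v hv
  exact hs β v hv

/-- The base change of the radical of the trace form consists of nilpotent endomorphisms. -/
theorem nil_bc {C : Type} [Field C] [CharZero C] [IsAlgClosed C] [Algebra k C]
    {G : Submodule k (End k V)} (hG : Full G) : ∀ X ∈ bcS C (radOf G), IsNilpotent X := by
  intro X hX
  have hle : radOf G ≤ G := fun X hX => hX.1
  refine nil_of_repl fun φ s hs => ?_
  have h2 : s ∈ bcS C G := repl_mem' hG (bcS_mono hle hX) hs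
  exact rad_orth hX h2

end repl

section semi

variable {k : Type} [Field k] [CharZero k] [Algebra k ℂ] {V : Type} [AddCommGroup V] [Module k V]
  [FiniteDimensional k V]

/-- The subspaces stable under `L` have stable complements. -/
theorem exists_projF (h : Inputs) (h2 : Inputs2) {L : Submodule k (End k V)}
    (hLie : IsLie L) (hF : Full L) (hND : NonDeg L) :
    ∀ U : Submodule k V, (∀ X ∈ L, ∀ x ∈ U, X x ∈ U) →
      ∃ P : End k V, (∀ X ∈ L, X * P = P * X) ∧ (∀ x, P x ∈ U) ∧ ∀ x ∈ U, P x = x := by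
  have hLC : IsLie (bcS ℂ L) := (h.bc k ℂ V L).2.1 hLie
  have hN : NonDeg (bcS ℂ L) := (h.bc k ℂ V L).2.2.1 hND
  intro U hU
  obtain ⟨P, hP1, hP2, hP3⟩ := h2.weyl ℂ _ (bcS ℂ L) hLC hN (fun z hz hzL => by
    obtain ⟨s, hs, hs1, hs2, hs3⟩ := jord' hF hz
    have h0 : z - s = 0 := by
      refine hN _ ((bcS ℂ L).sub_mem hz hs) fun Y hY => ?_
      have hc : Commute (z - s) Y := by
        have e1 := hzL Y hY
        have e2 := hs3 Y e1
        rw [Commute, SemiconjBy, sub_mul, mul_sub, e1, e2]
      exact (LinearMap.isNilpotent_trace_of_isNilpotent (hc.isNilpotent_mul_right hs2)).eq_zero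
    rw [sub_eq_zero.1 h0]
    exact hs1) (U.baseChange ℂ) (bcS_stable hU)
  obtain ⟨π, hπ⟩ := exists_pi k ℂ
  refine ⟨pM π P, fun X hX => ?_, fun x => ?_, fun x hx => ?_⟩
  · rw [← pM_bc_mul, hP1 _ (mem_bcS hX), pM_mul_bc]
  · rw [pM_apply]
    exact pv_mem π (hP2 _)
  · rw [pM_apply, hP3 _ (Submodule.tmul_mem_baseChange_of_mem 1 hx), pv_tmul, hπ, one_smul]

end semi

section gal

variable {ℓ : ℕ} [Fact ℓ.Prime] {ι : Type} [Fintype ι] [DecidableEq ι] {n : ι → ℕ} {Γ : Type}
  [Group Γ] [TopologicalSpace Γ] [IsTopologicalGroup Γ] [CompactSpace Γ]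

/-- If the trace form of the Lie algebra of the representation is nondegenerate, the representation
is semisimple. -/
theorem semisimple_of_nonDeg [Algebra ℚ_[ℓ] ℂ] (h : Inputs) (h2 : Inputs2) (ρ : Reps Γ n ℓ)
    (hρ : Conts ρ) {L : Submodule ℚ_[ℓ] (End ℚ_[ℓ] (∀ i, Fin (n i) → ℚ_[ℓ]))}
    (hL : ∀ X, X ∈ L ↔ X ∈ LT (sumRep ρ)) (hLie : IsLie L)
    (hAd : ∀ γ, ∀ X ∈ L, AdE (sumRep ρ γ) (sumRep ρ γ⁻¹) X ∈ L) (hND : NonDeg L) :
    FiniteIndexSemisimple (sumRep ρ) := by
  obtain ⟨Δ', hΔ', hcomm⟩ := h2.tfr ℓ ι n _ ρ hρ (comm L) (comm_conj (sumRep ρ) hAd)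
    (comm_order (sumRep ρ) h h2 hL)
  intro Δ hΔ U hU
  obtain ⟨P, hP1, hP2, hP3⟩ := exists_projF h h2 hLie (full_LT (sumRep ρ) hL) hND U
    fun X hX => ((hL X).1 hX).1 U ⟨Δ, hΔ, hU⟩
  exact Pool.Agent.Y41.RM.exists_compl_of_commute (sumRep ρ) Δ Δ' hΔ' U hU P hP2 hP3
    fun s hs => (hcomm s hs P hP1).symm

end gal

end Pool.Agent.H853.CC
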