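import Pool.Agent.H853.CC.Full

/-!
# Eigenvalues which are conjugate to their inverses

If the eigenvalues of the conjugation with `g` on `G ⊗ ℂ` are conjugate over `k` to their inverses, the
set of the eigenvalues on the base change of a stable subspace is closed under inversion; so the
radical of the trace form of a Lie algebra in `G` is zero if `g` is strongly regular on `G`.
-/

set_option autoImplicit false
set_option linter.unusedSectionVars false

namespace Pool.Agent.H853.CC

open Module TensorProduct Polynomial Pool.Agent.TH118.SG Pool.Agent.Y114.RM Pool.Agent.Y86.RM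
  Pool.Agent.Y914.RM Pool.Agent.Y212.RM Pool.Agent.NH34.BD Pool.Agent.Y114.MU Pool.Agent.H204R3.GP
  Pool.Agent.H853.SR

section gen

variable {K : Type} [Field K] {E : Type} [AddCommGroup E] [Module K E]

/-- A stable subspace which contains a nonzero generalized eigenvector contains an eigenvector. -/
theorem exists_eig {T : End K E} {M : Submodule K E} (hM : ∀ X ∈ M, T X ∈ M) {β : K} {X : E}
    (hX : X ∈ M) (hX0 : X ≠ 0) (hXβ : X ∈ T.maxGenEigenspace β) :
    ∃ Y ∈ M, Y ≠ 0 ∧ T Y = β • Y := by
  obtain ⟨m, hm⟩ := mem_gen.1 hXβ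
  clear hXβ
  induction m generalizing X with
  | zero =>
    rw [pow_zero, Module.End.one_apply] at hm
    exact absurd hm hX0
  | succ m ih =>
    by_cases h0 : (T - algebraMap K (End K E) β) X = 0
    · refine ⟨X, hX, hX0, ?_⟩
      rw [LinearMap.sub_apply, Module.algebraMap_end_apply, sub_eq_zero] at h0
      exact h0
    · refine ih ?_ h0 ?_
      · rw [LinearMap.sub_apply, Module.algebraMap_end_apply]
        exact M.sub_mem (hM X hX) (M.smul_mem β hX)
      · rw [← Module.End.mul_apply, ← pow_succ]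
        exact hm

theorem aeval_eig {T : End K E} {β : K} {Y : E} (h : T Y = β • Y) (p : K[X]) :
    aeval T p Y = p.eval β • Y := by
  have hpow : ∀ i : ℕ, (T ^ i) Y = β ^ i • Y := by
    intro i
    induction i with
    | zero => rw [pow_zero, pow_zero, one_smul, Module.End.one_apply]
    | succ i ih => rw [pow_succ, Module.End.mul_apply, h, map_smul, ih, smul_smul, pow_succ,
        mul_comm]
  rw [aeval_eq_sum_range, eval_eq_sum_range, LinearMap.sum_apply, Finset.sum_smul]
  refine Finset.sum_congr rfl fun i _ => ?_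
  rw [LinearMap.smul_apply, hpow, smul_smul]

theorem aeval_sub_mul (T : End K E) (β : K) (m : K[X]) (Y : E) :
    aeval T ((Polynomial.X - Polynomial.C β) * m) Y = T (aeval T m Y) - β • aeval T m Y := by
  rw [map_mul, Module.End.mul_apply, map_sub, aeval_X, aeval_C, LinearMap.sub_apply,
    Module.algebraMap_end_apply]

end gen

section poly

variable {k : Type} [Field k] {C : Type} [Field C] [Algebra k C] {V : Type} [AddCommGroup V]
  [Module k V] [FiniteDimensional k V]

theorem AdE_bc (g g' Z : End k V) : AdE (g.baseChange C) (g'.baseChange C) (Z.baseChange C) =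
    (AdE g g' Z).baseChange C := by
  rw [AdE_apply, AdE_apply, bc_mul, bc_mul]

theorem AdE_pow_bc (g g' Z : End k V) (i : ℕ) :
    ((AdE (g.baseChange C) (g'.baseChange C)) ^ i) (Z.baseChange C) =
      (((AdE g g') ^ i) Z).baseChange C := by
  induction i generalizing Z with
  | zero => rw [pow_zero, pow_zero, Module.End.one_apply, Module.End.one_apply]
  | succ i ih => rw [pow_succ, pow_succ, Module.End.mul_apply, Module.End.mul_apply, AdE_bc, ih]

theorem pM_smul (π : C →ₗ[k] k) (c : C) (Z : End k V) :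
    (pM π (c • Z.baseChange C) : End k V) = π c • Z := by
  refine LinearMap.ext fun v => ?_
  rw [pM_apply, LinearMap.smul_apply, LinearMap.baseChange_tmul, TensorProduct.smul_tmul',
    smul_eq_mul, mul_one, pv_tmul, LinearMap.smul_apply]

theorem pM_sum (π : C →ₗ[k] k) {α : Type} (s : Finset α) (f : α → End C (C ⊗[k] V)) :
    (pM π (∑ i ∈ s, f i) : End k V) = ∑ i ∈ s, (pM π (f i) : End k V) := by
  refine LinearMap.ext fun v => ?_
  rw [pM_apply, LinearMap.sum_apply, map_sum, LinearMap.sum_apply]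
  rfl

/-- **The eigenvalues on the base change of a stable space of endomorphisms.** -/
theorem exists_inv {g g' : End k V} {R : Submodule k (End k V)} (hR : ∀ X ∈ R, AdE g g' X ∈ R)
    {β β' : C} (hβ : ∀ f : k[X], aeval β f = 0 → aeval β' f = 0) {X : End C (C ⊗[k] V)}
    (hX : X ∈ bcS C R) (hX0 : X ≠ 0)
    (hXβ : X ∈ (AdE (g.baseChange C) (g'.baseChange C)).maxGenEigenspace β) :
    ∃ Y ∈ bcS C R, Y ≠ 0 ∧ AdE (g.baseChange C) (g'.baseChange C) Y = β' • Y := by
  classical
  set A : End k (End k V) := AdE g g' with hA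
  set B : End C (End C (C ⊗[k] V)) := AdE (g.baseChange C) (g'.baseChange C) with hB
  have hRC : ∀ X ∈ bcS C R, B X ∈ bcS C R := AdE_bcS hR
  let T : End k R := A.restrict hR
  have hT : ∀ (i : ℕ) (Z : R), (((T ^ i) Z : R) : End k V) = (A ^ i) Z := by
    intro i
    induction i with
    | zero => intro Z; rfl
    | succ i ih => intro Z; rw [pow_succ, pow_succ, Module.End.mul_apply, Module.End.mul_apply, ih]; rfl
  have hint : IsIntegral k T := Algebra.IsIntegral.isIntegral T
  set f : k[X] := minpoly k T with hf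
  have hfm : f.Monic := minpoly.monic hint
  have hf0 : aeval T f = 0 := minpoly.aeval k T
  -- `f` kills the base change
  have h1 : ∀ Z ∈ R, aeval A f Z = 0 := by
    intro Z hZ
    have h2 := congrArg (fun F : End k R => ((F ⟨Z, hZ⟩ : R) : End k V)) hf0
    simp only [LinearMap.zero_apply, ZeroMemClass.coe_zero] at h2
    rw [aeval_eq_sum_range, LinearMap.sum_apply] at h2 ⊢
    rw [← h2, AddSubmonoidClass.coe_finsetSum]
    refine Finset.sum_congr rfl fun i _ => ?_
    rw [LinearMap.smul_apply, LinearMap.smul_apply]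
    change _ = f.coeff i • (((T ^ i) ⟨Z, hZ⟩ : R) : End k V)
    rw [hT]
  have h2 : ∀ Y ∈ bcS C R, aeval B (f.map (algebraMap k C)) Y = 0 := by
    intro Y hY
    induction hY using Submodule.span_induction with
    | mem Y hY =>
      obtain ⟨Z, hZ, rfl⟩ := hY
      have h3 := congrArg (LinearMap.baseChange C) (h1 Z hZ)
      rw [LinearMap.baseChange_zero] at h3
      rw [← h3, aeval_map_algebraMap, aeval_eq_sum_range, aeval_eq_sum_range, LinearMap.sum_apply,
        LinearMap.sum_apply]
      have h4 : ∀ (s : Finset ℕ) (F : ℕ → End k V), (∑ i ∈ s, F i).baseChange C =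
          ∑ i ∈ s, (F i).baseChange C := by
        intro s F
        induction s using Finset.induction_on with
        | empty => rw [Finset.sum_empty, Finset.sum_empty, LinearMap.baseChange_zero]
        | insert a s ha ih => rw [Finset.sum_insert ha, Finset.sum_insert ha,
            LinearMap.baseChange_add, ih]
      rw [h4]
      refine Finset.sum_congr rfl fun i _ => ?_
      rw [LinearMap.smul_apply, LinearMap.smul_apply, LinearMap.baseChange_smul, AdE_pow_bc]
    | zero => rw [map_zero]
    | add a b _ _ ha hb => rw [map_add, ha, hb, add_zero]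
    | smul c a _ ha => rw [map_smul, ha, smul_zero]
  obtain ⟨X', hX', hX'0, hX'β⟩ := exists_eig hRC hX hX0 hXβ
  have h3 : aeval β f = 0 := by
    have h4 := h2 X' hX'
    rw [aeval_eig (E := End C (C ⊗[k] V)) hX'β, eval_map_algebraMap] at h4
    exact (smul_eq_zero.1 h4).resolve_right hX'0
  have h4 := hβ f h3
  by_contra hno
  push Not at hno
  -- divide by `X - β'`
  obtain ⟨m, hm⟩ : (Polynomial.X - Polynomial.C β' : C[X]) ∣ f.map (algebraMap k C) := by
    rw [dvd_iff_isRoot, IsRoot.def, eval_map_algebraMap]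
    exact h4
  have hfCm : (f.map (algebraMap k C)).Monic := hfm.map _
  have hmm : m.Monic := by
    rw [hm] at hfCm
    exact Monic.of_mul_monic_left (monic_X_sub_C β') hfCm
  have hdeg : f.natDegree = m.natDegree + 1 := by
    rw [← natDegree_map (algebraMap k C), hm, (monic_X_sub_C β').natDegree_mul hmm,
      natDegree_X_sub_C, add_comm]
  have haev : ∀ (p : C[X]), ∀ Y ∈ bcS C R, aeval B p Y ∈ bcS C R := by
    intro p Y hY
    have hpow : ∀ i : ℕ, ∀ Y ∈ bcS C R, (B ^ i) Y ∈ bcS C R := by
      intro i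
      induction i with
      | zero => intro Y hY; exact hY
      | succ i ih => intro Y hY; rw [pow_succ, Module.End.mul_apply]; exact ih _ (hRC Y hY)
    rw [aeval_eq_sum_range, LinearMap.sum_apply]
    refine Submodule.sum_mem _ fun i _ => ?_
    rw [LinearMap.smul_apply]
    exact Submodule.smul_mem _ _ (hpow i Y hY)
  have hm0 : ∀ Y ∈ bcS C R, aeval B m Y = 0 := by
    intro Y hY
    by_contra hne
    refine hno _ (haev m Y hY) hne ?_
    have h5 := h2 Y hY
    rw [hm] at h5
    have h6 := aeval_sub_mul (E := End C (C ⊗[k] V)) B β' m Y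
    rw [h5] at h6
    exact sub_eq_zero.1 h6.symm
  obtain ⟨π, hπ⟩ := exists_pi k C
  let q : k[X] := ∑ i ∈ Finset.range (m.natDegree + 1), monomial i (π (m.coeff i))
  have hqc : q.coeff m.natDegree = 1 := by
    rw [finsetSum_coeff]
    simp only [coeff_monomial]
    rw [Finset.sum_ite_eq' , if_pos (Finset.mem_range.2 (Nat.lt_succ_self _)), hmm.coeff_natDegree,
      hπ]
  have hq0 : q ≠ 0 := by
    intro h5
    rw [h5, coeff_zero] at hqc
    exact zero_ne_one hqc
  have hqd : q.natDegree ≤ m.natDegree := by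
    refine natDegree_sum_le_of_forall_le _ _ fun i hi => ?_
    exact (natDegree_monomial_le _).trans (Nat.lt_succ_iff.1 (Finset.mem_range.1 hi))
  have hqT : aeval T q = 0 := by
    refine LinearMap.ext fun Z => Subtype.ext ?_
    have h5 := hm0 _ (mem_bcS (C := C) Z.2)
    have h6 := congrArg (fun Y : End C (C ⊗[k] V) => (pM π Y : End k V)) h5
    have h7 : (pM π (0 : End C (C ⊗[k] V)) : End k V) = 0 := by
      refine LinearMap.ext fun v => ?_
      rw [pM_apply, LinearMap.zero_apply, map_zero, LinearMap.zero_apply]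
    rw [h7, aeval_eq_sum_range, LinearMap.sum_apply, pM_sum] at h6
    rw [map_sum, LinearMap.sum_apply, AddSubmonoidClass.coe_finsetSum, LinearMap.zero_apply,
      ZeroMemClass.coe_zero, ← h6]
    refine Finset.sum_congr rfl fun i _ => ?_
    rw [LinearMap.smul_apply, AdE_pow_bc, pM_smul, aeval_monomial, Module.End.mul_apply,
      Module.algebraMap_end_apply]
    change π (m.coeff i) • (((T ^ i) Z : R) : End k V) = _
    rw [hT]
  have h8 := minpoly.degree_le_of_ne_zero k T hq0 hqT
  have h9 := natDegree_le_natDegree h8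
  change f.natDegree ≤ q.natDegree at h9
  omega

end poly

section rad

theorem trace_gen {K : Type} [Field K] {W : Type} [AddCommGroup W] [Module K W] {g g' : End K W}
    (h' : g' * g = 1) {c : K} (hc : c ≠ 1) {Z : End K W}
    (hZ : Z ∈ (AdE g g').maxGenEigenspace c) : LinearMap.trace K W Z = 0 := by
  obtain ⟨m, hm⟩ := mem_gen.1 hZ
  have h1 : ∀ Y : End K W, LinearMap.trace K W (AdE g g' Y) = LinearMap.trace K W Y := by
    intro Y
    rw [AdE_apply, LinearMap.trace_mul_comm, mul_assoc, h', mul_one]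
  have h2 : ∀ (m : ℕ) (Y : End K W), LinearMap.trace K W
      (((AdE g g' - algebraMap K (End K (End K W)) c) ^ m) Y) = (1 - c) ^ m *
        LinearMap.trace K W Y := by
    intro m
    induction m with
    | zero => intro Y; rw [pow_zero, pow_zero, one_mul, Module.End.one_apply]
    | succ m ih =>
      intro Y
      have h3 : (AdE g g' - algebraMap K (End K (End K W)) c) Y = AdE g g' Y - c • Y := rfl
      rw [pow_succ, Module.End.mul_apply, ih, h3, map_sub, h1, map_smul, smul_eq_mul, pow_succ]
      ring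
  have h3 := h2 m Z
  rw [hm, map_zero] at h3
  exact (mul_eq_zero.1 h3.symm).resolve_left (pow_ne_zero _ (sub_ne_zero.2 (Ne.symm hc)))

variable {k : Type} [Field k] [CharZero k] [Algebra k ℂ] {V : Type} [AddCommGroup V] [Module k V]
  [FiniteDimensional k V]

/-- The radical of the trace form is stable. -/
theorem radOf_stable {L : Submodule k (End k V)} {g g' : End k V}
    (h : ∀ X ∈ L, AdE g g' X ∈ L) (h' : ∀ X ∈ L, AdE g' g X ∈ L) :
    ∀ X ∈ radOf L, AdE g g' X ∈ radOf L := by
  rintro X ⟨hX, hX'⟩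
  refine ⟨h X hX, fun Y hY => ?_⟩
  rw [AdE_apply, tr_conj]
  have h2 := h' Y hY
  rw [AdE_apply] at h2
  exact hX' _ h2

/-- **The radical is zero.** -/
theorem nonDeg_of_conj {G L : Submodule k (End k V)} {g g' : End k V} (h1 : g * g' = 1)
    (h2 : g' * g = 1) (hND : NonDeg (bcS ℂ G)) (hLG : L ≤ G) (hF : Full L)
    (hG : ∀ X ∈ G, AdE g g' X ∈ G)
    (hL : ∀ X ∈ L, AdE g g' X ∈ L) (hL' : ∀ X ∈ L, AdE g' g X ∈ L)
    (hcomm : ∀ X ∈ bcS ℂ G, X ∈ (AdE (g.baseChange ℂ) (g'.baseChange ℂ)).maxGenEigenspace 1 →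
      ∀ Y ∈ bcS ℂ G, Y ∈ (AdE (g.baseChange ℂ) (g'.baseChange ℂ)).maxGenEigenspace 1 →
      X * Y = Y * X)
    (hsimple : ∀ β, β ≠ 1 → ∀ X ∈ bcS ℂ G,
      X ∈ (AdE (g.baseChange ℂ) (g'.baseChange ℂ)).maxGenEigenspace β → X ≠ 0 → ∀ Y ∈ bcS ℂ G,
      Y ∈ (AdE (g.baseChange ℂ) (g'.baseChange ℂ)).maxGenEigenspace β → ∃ c : ℂ, Y = c • X)
    (hconj : ∀ β, β ≠ 1 → ∀ X ∈ bcS ℂ G,
      X ∈ (AdE (g.baseChange ℂ) (g'.baseChange ℂ)).maxGenEigenspace β → X ≠ 0 →
      ∀ f : k[X], aeval β f = 0 → aeval β⁻¹ f = 0) : NonDeg L := by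
  have hg1 : (g.baseChange ℂ : End ℂ (ℂ ⊗[k] V)) * g'.baseChange ℂ = 1 := by
    rw [← bc_mul, h1, bc_one]
  have hg2 : (g'.baseChange ℂ : End ℂ (ℂ ⊗[k] V)) * g.baseChange ℂ = 1 := by
    rw [← bc_mul, h2, bc_one]
  set A := AdE (g.baseChange ℂ : End ℂ (ℂ ⊗[k] V)) (g'.baseChange ℂ) with hA
  have hRst := radOf_stable hL hL'
  have hRG : bcS ℂ (radOf L) ≤ bcS ℂ G := bcS_mono fun X hX => hLG hX.1
  have hRL : bcS ℂ (radOf L) ≤ bcS ℂ L := bcS_mono fun X hX => hX.1
  have hGC : ∀ X ∈ bcS ℂ G, A X ∈ bcS ℂ G := AdE_bcS hG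
  have key : ∀ X ∈ bcS ℂ (radOf L), X = 0 := by
    refine ind_gen (g := g.baseChange ℂ) (g' := g'.baseChange ℂ) (AdE_bcS hRst)
      (P := fun X => X = 0) rfl ?_ ?_
    · intro X Y hX hY
      show X + Y = 0
      rw [show X = 0 from hX, show Y = 0 from hY, add_zero]
    · intro β X hX hXβ
      show X = 0
      refine hND X (hRG hX) ?_
      -- orthogonality to the generalized eigenspaces
      refine ind_gen (g := g.baseChange ℂ) (g' := g'.baseChange ℂ) hGC
        (P := fun Y => LinearMap.trace ℂ (ℂ ⊗[k] V) (X * Y) = 0) ?_ ?_ ?_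
      · show LinearMap.trace ℂ _ (X * 0) = 0
        rw [mul_zero, map_zero]
      · intro Y Z hY hZ
        show LinearMap.trace ℂ _ (X * (Y + Z)) = 0
        rw [mul_add, map_add, show LinearMap.trace ℂ _ (X * Y) = 0 from hY,
          show LinearMap.trace ℂ _ (X * Z) = 0 from hZ, add_zero]
      · intro β' Y hY hYβ
        show LinearMap.trace ℂ _ (X * Y) = 0
        by_cases hββ : β * β' = 1
        · by_cases hβ1 : β = 1
          · -- both commute
            have hβ'1 : β' = 1 := by rwa [hβ1, one_mul] at hββ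
            rw [hβ1] at hXβ
            rw [hβ'1] at hYβ
            have hc : Commute X Y := hcomm X (hRG hX) hXβ Y hY hYβ
            exact (LinearMap.isNilpotent_trace_of_isNilpotent
              (hc.isNilpotent_mul_right (nil_bc hF X hX))).eq_zero
          · by_cases hX0 : X = 0
            · rw [hX0, zero_mul, map_zero]
            have hβ0 : β ≠ 0 := left_ne_zero_of_mul_eq_one hββ
            have hβ' : β' = β⁻¹ := eq_inv_of_mul_eq_one_right hββ
            obtain ⟨Z, hZ, hZ0, hZβ⟩ := exists_inv hRst (hconj β hβ1 X (hRG hX) hXβ hX0) hX hX0 hXβ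
            have hZg : Z ∈ A.maxGenEigenspace β⁻¹ := by
              refine mem_gen.2 ⟨1, ?_⟩
              rw [pow_one]
              change A Z - β⁻¹ • Z = 0
              rw [hZβ, sub_self]
            obtain ⟨c, hc⟩ := hsimple β⁻¹ (fun h => hβ1 (inv_eq_one.1 h)) Z (hRG hZ) hZg hZ0 Y hY
              (by rw [← hβ']; exact hYβ)
            rw [hc, mul_smul_comm, map_smul, rad_orth hX (hRL hZ), smul_zero]
        · exact trace_gen hg2 hββ (mul_gen hg2 hXβ hYβ)
  intro X hX hXY
  have h3 := key _ (mem_bcS (C := ℂ) (show X ∈ radOf L from ⟨hX, hXY⟩))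
  refine Pool.Agent.Y114.RM.bc_inj (C := ℂ) ?_
  rw [h3]
  exact (LinearMap.baseChange_zero ..).symm

end rad

end Pool.Agent.H853.CC
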