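import Pool.Agent.H853.CC.Quot
import Pool.Graph.R_seed8.W522.C.C5
import Pool.Graph.R_seed8.W522.C.C7

/-!
# Semisimplicity at a prime `ℓ` at which the complex conjugation is in the decomposition group
-/

set_option autoImplicit false
set_option linter.unusedSectionVars false

namespace Pool.Agent.H853.CC

open Module TensorProduct Polynomial Pool.Agent.TH118.SG Pool.Agent.Y114.RM Pool.Agent.Y86.RM
  Pool.Agent.Y914.RM Pool.Agent.Y212.RM Pool.Agent.NH34.BD Pool.Agent.Y114.MU Pool.Agent.H204R3.GP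
  Pool.Agent.H853.SR Pool.Agent.Y114.TF Pool.Agent.Y114.GF Pool.Agent.W522.C

section conj

/-- **The quotients of roots of pure polynomials are conjugate over `ℚ_ℓ` to their inverses**, if the
complex conjugation on the splitting field is induced by an automorphism of the algebraic closure of
`ℚ_ℓ`. -/
theorem quot_conj {ℓ : ℕ} [Fact ℓ.Prime] {P : ℤ[X]} (hP : P ≠ 0) (hlift : ConjLift P ℓ)
    {Q : ℤ[X]} (hQ : Q ∣ P) {c : ℝ} (hpure : ∀ z : ℂ, aeval z Q = 0 → ‖z‖ ^ 2 = c)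
    {a b : AlgebraicClosure ℚ_[ℓ]} (ha : aeval a Q = 0) (hb : aeval b Q = 0) :
    minpoly ℚ_[ℓ] (a / b) = minpoly ℚ_[ℓ] (b / a) := by
  classical
  by_cases ha0 : a = 0
  · rw [ha0, zero_div, div_zero]
  by_cases hb0 : b = 0
  · rw [hb0, zero_div, div_zero]
  obtain ⟨ι, σ, hσ⟩ := hlift
  have hsplit : (Q.map (Int.castRingHom (SF P))).Splits := splitsSF hQ hP
  have hQ0 : Q ≠ 0 := fun h => hP (by rw [h, zero_dvd_iff] at hQ; exact hQ)
  have hmap : (Q.map (Int.castRingHom (SF P))).map ι =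
      Q.map (Int.castRingHom (AlgebraicClosure ℚ_[ℓ])) := by
    rw [Polynomial.map_map]
    congr 1
    exact RingHom.ext_int _ _
  -- the roots come from the splitting field
  have hroot : ∀ x : AlgebraicClosure ℚ_[ℓ], aeval x Q = 0 → ∃ y : SF P, ι y = x ∧
      aeval ((y : SF P) : ℂ) Q = 0 := by
    intro x hx
    have h1 : x ∈ (Q.map (Int.castRingHom (AlgebraicClosure ℚ_[ℓ]))).roots := by
      rw [mem_roots ((Polynomial.map_ne_zero_iff (RingHom.injective_int _)).2 hQ0), IsRoot.def,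
        eval_map]
      rw [aeval_def] at hx
      exact hx
    rw [← hmap, hsplit.roots_map ι] at h1
    obtain ⟨y, hy, rfl⟩ := Multiset.mem_map.1 h1
    refine ⟨y, rfl, ?_⟩
    have h2 := (mem_roots'.1 hy).2
    rw [IsRoot.def, eval_map] at h2
    have h3 := congrArg (algebraMap (SF P) ℂ) h2
    rw [map_zero, Polynomial.hom_eval₂] at h3
    rw [aeval_def]
    have h4 : algebraMap ℤ ℂ = (algebraMap (SF P) ℂ).comp (Int.castRingHom (SF P)) :=
      RingHom.ext_int _ _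
    rw [h4]
    exact h3
  obtain ⟨x, rfl, hxQ⟩ := hroot a ha
  obtain ⟨y, rfl, hyQ⟩ := hroot b hb
  have hx0 : x ≠ 0 := by rintro rfl; exact ha0 (map_zero ι)
  have hy0 : y ≠ 0 := by rintro rfl; exact hb0 (map_zero ι)
  have hmul : ∀ z : SF P, aeval ((z : SF P) : ℂ) Q = 0 → ((conjSF P z * z : SF P) : ℂ) = (c : ℂ) := by
    intro z hz
    change ((conjSF P z : SF P) : ℂ) * (z : ℂ) = _
    rw [conjSF_apply, mul_comm, Complex.mul_conj, Complex.normSq_eq_norm_sq, hpure _ hz]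
  have hxy : conjSF P x * x = conjSF P y * y :=
    Subtype.val_injective ((hmul x hxQ).trans (hmul y hyQ).symm)
  have hc : conjSF P (x / y) = y / x := by
    rw [map_div₀]
    have hcy : conjSF P y ≠ 0 := fun h => hy0 ((conjSF P).injective (by rw [h, map_zero]))
    rw [div_eq_div_iff hcy hx0, hxy, mul_comm]
  rw [← map_div₀, ← map_div₀, ← hc, ← hσ]
  exact (minpoly.algEquiv_eq σ _).symm

end conj

section loc

variable {ℓ : ℕ} [Fact ℓ.Prime]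

/-- Transport to the complex numbers. -/
theorem conj_complex [Algebra ℚ_[ℓ] ℂ] {q : ℚ_[ℓ][X]} (hq : q ≠ 0)
    (h : ∀ a b : AlgebraicClosure ℚ_[ℓ], aeval a q = 0 → aeval b q = 0 →
      minpoly ℚ_[ℓ] (a / b) = minpoly ℚ_[ℓ] (b / a))
    {β b : ℂ} (hb0 : b ≠ 0) (hb : aeval b q = 0) (ha : aeval (β * b) q = 0)
    (f : ℚ_[ℓ][X]) (hf : aeval β f = 0) : aeval β⁻¹ f = 0 := by
  let ε : AlgebraicClosure ℚ_[ℓ] →ₐ[ℚ_[ℓ]] ℂ := IsAlgClosed.lift
  have hroot : ∀ x : ℂ, aeval x q = 0 → ∃ y : AlgebraicClosure ℚ_[ℓ], ε y = x ∧ aeval y q = 0 := by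
    intro x hx
    have h1 : x ∈ ((q.map (algebraMap ℚ_[ℓ] (AlgebraicClosure ℚ_[ℓ]))).map
        (ε : AlgebraicClosure ℚ_[ℓ] →+* ℂ)).roots := by
      rw [Polynomial.map_map, mem_roots ((Polynomial.map_ne_zero_iff (RingHom.injective _)).2 hq),
        IsRoot.def, eval_map]
      rw [aeval_def] at hx
      have h2 : (ε : AlgebraicClosure ℚ_[ℓ] →+* ℂ).comp
          (algebraMap ℚ_[ℓ] (AlgebraicClosure ℚ_[ℓ])) = algebraMap ℚ_[ℓ] ℂ :=
        RingHom.ext fun x => ε.commutes x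
      rw [h2]
      exact hx
    have hs : (q.map (algebraMap ℚ_[ℓ] (AlgebraicClosure ℚ_[ℓ]))).Splits := IsAlgClosed.splits _
    rw [hs.roots_map] at h1
    obtain ⟨y, hy, rfl⟩ := Multiset.mem_map.1 h1
    refine ⟨y, rfl, ?_⟩
    have h2 := (mem_roots'.1 hy).2
    rw [IsRoot.def, eval_map] at h2
    exact h2
  obtain ⟨y, hy, hyq⟩ := hroot b hb
  obtain ⟨x, hx, hxq⟩ := hroot _ ha
  have hβ : β = ε (x / y) := by
    rw [map_div₀, hx, hy, mul_div_assoc, div_self hb0, mul_one]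
  have hβ' : β⁻¹ = ε (y / x) := by
    rw [hβ, ← map_inv₀, inv_div]
  have h1 : aeval (x / y) f = 0 := by
    apply ε.injective
    rw [map_zero]
    rw [hβ, aeval_algHom_apply] at hf
    exact hf
  have h2 : aeval (y / x) f = 0 := by
    have h3 := minpoly.dvd ℚ_[ℓ] _ h1
    rw [h x y hxq hyq] at h3
    obtain ⟨r, hr⟩ := h3
    rw [hr, map_mul, minpoly.aeval, zero_mul]
  rw [hβ', aeval_algHom_apply, h2, map_zero]

variable {ι : Type} [Fintype ι] [DecidableEq ι] {n : ι → ℕ} {Γ : Type}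
  [Group Γ] [TopologicalSpace Γ] [IsTopologicalGroup Γ] [CompactSpace Γ]

/-- The quotients of eigenvalues of `γ` on the same summand are conjugate over `ℚ_ℓ` to their
inverses. -/
def InvConj (ρ : Reps Γ n ℓ) (γ : Γ) : Prop :=
  ∀ i, ∀ a b : AlgebraicClosure ℚ_[ℓ], aeval a (ρ i γ).charpoly = 0 →
    aeval b (ρ i γ).charpoly = 0 → minpoly ℚ_[ℓ] (a / b) = minpoly ℚ_[ℓ] (b / a)

/-- **Semisimplicity at `ℓ`.** -/
theorem semisimple_local [Algebra ℚ_[ℓ] ℂ] (h : Inputs) (h2 : Inputs2) (ρ : Reps Γ n ℓ)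
    (hρ : Conts ρ) (𝔤 : Submodule ℚ_[ℓ] (End ℚ_[ℓ] (∀ i, Fin (n i) → ℚ_[ℓ])))
    (h𝔤 : IsMotivic ρ 𝔤) (γ : Γ) (hγ : StronglyRegular (sumRep ρ) 𝔤 γ) (hc : InvConj ρ γ) :
    FiniteIndexSemisimple (sumRep ρ) := by
  obtain ⟨L, hL, hLie, hAd, -⟩ := h.lie ℚ_[ℓ] (∀ i, Fin (n i) → ℚ_[ℓ]) _ (sumRep ρ)
  have hLG : L ≤ 𝔤 := fun X hX => h𝔤.algebraic X fun m φ hφ => ((hL X).1 hX).2 m φ (h𝔤.tate m φ hφ)
  refine semisimple_of_nonDeg h h2 ρ hρ hL hLie hAd ?_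
  have hG : ∀ X ∈ 𝔤, AdE (sumRep ρ γ) (sumRep ρ γ⁻¹) X ∈ 𝔤 := by
    intro X hX
    rw [AdE_apply, ← mul_assoc]
    exact hγ.normalizes X hX
  have h1 : sumRep ρ γ * sumRep ρ γ⁻¹ = 1 := rho_mul_inv (sumRep ρ) γ
  have h2' : sumRep ρ γ⁻¹ * sumRep ρ γ = 1 := rho_inv_mul (sumRep ρ) γ
  refine nonDeg_of_conj h1 h2' ((h.bc _ ℂ _ 𝔤).2.2.1 h𝔤.nondeg) hLG (full_LT (sumRep ρ) hL) hG
    (hAd γ) ?_ ?_ ?_ ?_
  · intro X hX
    have h3 := hAd γ⁻¹ X hX
    rwa [inv_inv] at h3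
  · intro X hX hX1 Y hY hY1
    exact hγ.torus X ⟨hX, hX1⟩ Y ⟨hY, hY1⟩
  · intro β hβ X hX hXβ hX0 Y hY hYβ
    exact smul_of_finrank (hγ.simple β hβ) ⟨hX, hXβ⟩ ⟨hY, hYβ⟩ hX0
  · intro β hβ X hX hXβ hX0 f hf
    obtain ⟨i, b, hb0, hb, ha, hβ0⟩ := exists_quot (gi := fun i => ρ i γ) h1 h2' (fun _ _ => rfl) hG
      h𝔤.parts hX hX0 hXβ
    exact conj_complex (LinearMap.charpoly_monic (ρ i γ)).ne_zero (hc i) hb0 hb ha f hf

end loc

end Pool.Agent.H853.CC
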