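import Pool.Agent.H853.CC.Det
import Pool.Agent.H853.CC.Norm

/-!
# The determinant characters of the stable subspaces of the motivic Lie algebra
-/

set_option autoImplicit false
set_option linter.unusedSectionVars false
set_option linter.unusedVariables false

namespace Pool.Agent.H853.CC

open Pool.Agent

open NumberField IsDedekindDomain Module Polynomial TensorProduct Pool.Agent.TH118.SG
  Pool.Agent.Y114.MU Pool.Agent.Y114.TF Pool.Agent.Y114.GF Pool.Agent.H204R3.GP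
open Pool.Agent.W569.FM Pool.Agent.W571.FM Pool.Agent.Y115.R Pool.Agent.Y115.T Pool.Agent.Y115.Chi
  Pool.Agent.Y115.CQ
open Pool.Agent.Y114.RM Pool.Agent.Y212.RM Pool.Agent.NH34.BD Pool.Agent.H853.SR

section main

variable {F : Type} [Field F] [NumberField F] {ι : Type} [Fintype ι] [DecidableEq ι] {n : ι → ℕ}
  {w : ι → ℤ} {ℓ : ℕ} [hℓ : Fact ℓ.Prime] {Γ : Type} [Group Γ] [TopologicalSpace Γ]
  [IsTopologicalGroup Γ] [CompactSpace Γ]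

/-- The character by which the Galois group acts on the determinant of a stable subspace. -/
theorem det_char (h : Inputs) (h2 : Inputs2) (ρ : Reps Γ n ℓ) (hρ : Conts ρ)
    (s : Gal(AlgebraicClosure F/F) →* Γ) (hs : Continuous s)
    (𝔤 : Submodule ℚ_[ℓ] (End ℚ_[ℓ] (∀ i, Fin (n i) → ℚ_[ℓ]))) (h𝔤 : IsMotivic ρ 𝔤)
    (j : ℚ_[ℓ] →+* ℂ)
    {L : Submodule ℚ_[ℓ] (End ℚ_[ℓ] (∀ i, Fin (n i) → ℚ_[ℓ]))} (hLG : L ≤ 𝔤)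
    (hAd : ∀ γ, ∀ X ∈ L, AdE (sumRep ρ γ) (sumRep ρ γ⁻¹) X ∈ L) :
    ∃ ψ : GF F →* ℚ_[ℓ]ˣ, Continuous ψ ∧
      (∀ τ, (ψ τ : ℚ_[ℓ]) = detOn L (AdE (sumRep ρ (s τ)) (sumRep ρ (s τ)⁻¹)) (hAd (s τ))) ∧
      ∀ (v : HeightOneSpectrum (𝓞 F)) (P' : ι → ℚ[X]), GoodPlace (restrictTo ρ s) w v P' →
        (∀ Q : Ideal (OO F), Q.IsPrime → cm Q = v.asIdeal → ∀ g, InInertia Q g → ψ g = 1) ∧
        ∀ (Q : Ideal (OO F)) (σ : GF F), Q.IsPrime → cm Q = v.asIdeal →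
          FrobAt (Ideal.absNorm v.asIdeal) Q σ →
          IsAlgebraic ℚ (ψ σ : ℚ_[ℓ]) ∧ ‖j (ψ σ : ℚ_[ℓ])‖ = 1 ∧
          ∃ u ∈ ratioGroup P', (u : ℂ) = j (ψ σ⁻¹ : ℚ_[ℓ]) := by
  classical
  let _ : Algebra ℚ_[ℓ] ℂ := j.toAlgebra
  obtain ⟨ψ', hψc', hψ'⟩ := h.cont ℓ ι n _ ρ hρ L hAd
  let ψ : GF F →* ℚ_[ℓ]ˣ := ψ'.comp s
  have hψc : Continuous ψ := hψc'.comp hs
  have hψ : ∀ γ, (ψ γ : ℚ_[ℓ]) = detOn L (AdE (sumRep ρ (s γ)) (sumRep ρ (s γ)⁻¹)) (hAd (s γ)) :=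
    fun γ => hψ' (s γ)
  have hinv : ∀ g : GF F, (ψ g⁻¹ : ℚ_[ℓ]) = (ψ g : ℚ_[ℓ])⁻¹ := by
    intro g
    rw [map_inv, Units.val_inv_eq_inv_val]
  refine ⟨ψ, hψc, hψ, ?_⟩
  rintro v P' hP'
  refine ⟨fun Q hQ hQv g hg => ?_, fun Q σ hQ hQv hσ => ?_⟩
  · apply Units.ext
    rw [hψ, Units.val_one]
    have h1 : sumRep ρ (s g) = 1 := by
      rw [← map_one (sumRep ρ)]
      refine sumRep_congr ρ fun i => ?_
      rw [map_one]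
      exact hP'.unramified i Q ⟨hQ, hQv⟩ g hg
    have h2 : sumRep ρ (s g)⁻¹ = 1 := by
      have h3 := Y114.RM.rho_mul_inv (sumRep ρ) (s g)
      rwa [h1, one_mul] at h3
    have h3 : ∀ (a b : End ℚ_[ℓ] (∀ i, Fin (n i) → ℚ_[ℓ])) (hab : ∀ X ∈ L, AdE a b X ∈ L),
        a = 1 → b = 1 → detOn L (AdE a b) hab = 1 := by
      rintro a b hab rfl rfl
      exact detOn_one hab
    exact h3 _ _ _ h1 h2
  · have hfr : ∀ i, (ρ i (s σ)⁻¹).charpoly = (P' i).map (algebraMap ℚ ℚ_[ℓ]) := by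
      intro i
      have h1 := hP'.frobenius i Q ⟨hQ, hQv⟩ σ hσ
      rw [← h1, ← map_inv]
      rfl
    obtain ⟨h1, h3⟩ := h.adw ℓ j ι n (sumRep ρ (s σ)⁻¹) (sumRep ρ ((s σ)⁻¹)⁻¹)
      (fun i => ρ i (s σ)⁻¹) P' (fun i => (Y114.GF.q v : ℝ) ^ w i) (Y114.RM.rho_mul_inv _ _)
      (Y114.RM.rho_inv_mul _ _) (fun _ _ => rfl) hfr
      hP'.pure L (fun X hX => h𝔤.parts X (hLG hX)) (hAd _)
    obtain ⟨u, hu, hu'⟩ := h2.ratio ℓ j ι n (sumRep ρ (s σ)⁻¹)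
      (sumRep ρ ((s σ)⁻¹)⁻¹)
      (fun i => ρ i (s σ)⁻¹) P' (Y114.RM.rho_mul_inv _ _) (Y114.RM.rho_inv_mul _ _)
      (fun _ _ => rfl) hfr
      L (fun X hX => h𝔤.parts X (hLG hX)) (hAd _)
    have hψ2 : (ψ σ⁻¹ : ℚ_[ℓ]) = detOn L (AdE (sumRep ρ (s σ)⁻¹)
        (sumRep ρ ((s σ)⁻¹)⁻¹)) (hAd _) := by
      have h4 := hψ' (s σ)⁻¹
      rw [← h4, ← map_inv s]
      rfl
    rw [← hψ2] at h1 h3 hu'
    refine ⟨?_, ?_, u, hu, hu'⟩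
    · rw [hinv] at h1
      exact IsAlgebraic.inv_iff.1 h1
    · rw [hinv, map_inv₀, norm_inv, inv_eq_one] at h3
      exact h3

/-- The product of the determinants of Frobenius elements at all places above a good prime is a root of
unity. -/
theorem det_prod (h : Inputs) (h2 : Inputs2) (ρ : Reps Γ n ℓ) (hρ : Conts ρ)
    (s : Gal(AlgebraicClosure F/F) →* Γ) (hs : Continuous s)
    (𝔤 : Submodule ℚ_[ℓ] (End ℚ_[ℓ] (∀ i, Fin (n i) → ℚ_[ℓ]))) (h𝔤 : IsMotivic ρ 𝔤)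
    (P : HeightOneSpectrum (𝓞 F) → ι → ℚ[X])
    (T : Set ℕ) (hT3 : 3 ≤ T.encard) (hT : ∀ p ∈ T, p.Prime ∧ p ≠ ℓ ∧ UnramifiedIn F p)
    (hgood : ∀ p ∈ T, ∀ v, Above v p → GoodPlace (restrictTo ρ s) w v (P v))
    {L : Submodule ℚ_[ℓ] (End ℚ_[ℓ] (∀ i, Fin (n i) → ℚ_[ℓ]))} (hLG : L ≤ 𝔤)
    (hAd : ∀ γ, ∀ X ∈ L, AdE (sumRep ρ γ) (sumRep ρ γ⁻¹) X ∈ L)
    {p : ℕ} (hp : p ∈ T) (σ : HeightOneSpectrum (𝓞 F) → Gal(AlgebraicClosure F/F))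
    (hσ : ∀ v, Above v p → ∃ Q, PrimeOver Q v ∧ IsFrobAt Q (Y114.GF.q v) (σ v)) :
    ∃ m : ℕ, 0 < m ∧ (∏ᶠ (v : HeightOneSpectrum (𝓞 F)) (_ : Above v p),
      detOn L (AdE (sumRep ρ (s (σ v))) (sumRep ρ (s (σ v))⁻¹)) (hAd (s (σ v)))) ^ m = 1 := by
  classical
  obtain ⟨j, hj⟩ := exists_j ℓ ℚ_[ℓ] ℚ (algebraMap ℚ ℚ_[ℓ]) (algebraMap ℚ ℂ)
  obtain ⟨ψ, hψc, hψ, hψg⟩ := det_char (w := w) h h2 ρ hρ s hs 𝔤 h𝔤 j hLG hAd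
  have hfr₀ : ∀ v : HeightOneSpectrum (𝓞 F), ∃ (Q : Ideal (OO F)) (σ : GF F), Q.IsMaximal ∧
      cm Q = v.asIdeal ∧ FrobAt (Ideal.absNorm v.asIdeal) Q σ := fun v => frob_cm v
  choose Q₀ σ₀ hQ₀ hQ₀v hσ₀ using hfr₀
  obtain ⟨M, hM, S, hS, hprod⟩ := prod_torsion ψ hψc T hT3 hT (fun v => ψ (σ₀ v)) (by
      intro p hp v hv Q hQ hQv
      have hin := (hψg v (P v) (hgood p hp v hv)).1
      exact ⟨hin Q hQ hQv, fun φ hφ => frob_value ψ v hin (hQ₀ v).isPrime hQ (hQ₀v v) hQv (hσ₀ v)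
        hφ⟩) (fun p hp v hv => ((hψg v (P v) (hgood p hp v hv)).2 (Q₀ v) (σ₀ v) (hQ₀ v).isPrime
          (hQ₀v v) (hσ₀ v)).1) j
      (fun p hp v hv => ((hψg v (P v) (hgood p hp v hv)).2 (Q₀ v) (σ₀ v) (hQ₀ v).isPrime
          (hQ₀v v) (hσ₀ v)).2.1) p hp
  refine ⟨M, hM, ?_⟩
  have h3 : (∏ᶠ (v : HeightOneSpectrum (𝓞 F)) (_ : Above v p),
      detOn L (AdE (sumRep ρ (s (σ v))) (sumRep ρ (s (σ v))⁻¹)) (hAd (s (σ v)))) =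
      ∏ v ∈ S, detOn L (AdE (sumRep ρ (s (σ v))) (sumRep ρ (s (σ v))⁻¹)) (hAd (s (σ v))) :=
    finprod_cond_eq_prod_of_cond_iff _ fun {v} _ => (hS v).symm
  rw [h3]
  have h4 : ∏ v ∈ S, detOn L (AdE (sumRep ρ (s (σ v))) (sumRep ρ (s (σ v))⁻¹)) (hAd (s (σ v))) =
      ((∏ v ∈ S, ψ (σ₀ v) : ℚ_[ℓ]ˣ) : ℚ_[ℓ]) := by
    rw [Units.coe_prod]
    refine Finset.prod_congr rfl fun v hv => ?_
    have hv' : Above v p := (hS v).1 hv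
    obtain ⟨Q, hQ, hQσ⟩ := hσ v hv'
    have hin := (hψg v (P v) (hgood p hp v hv')).1
    rw [← hψ, frob_value ψ v hin (hQ₀ v).isPrime hQ.1 (hQ₀v v) hQ.2 (hσ₀ v) hQσ]
  rw [h4, ← Units.val_pow_eq_pow_val, hprod, Units.val_one]

theorem absNorm_rat {p : ℕ} (hp : p.Prime) {v : HeightOneSpectrum (𝓞 ℚ)}
    (hv : (p : 𝓞 ℚ) ∈ v.asIdeal) : Ideal.absNorm v.asIdeal = p := by
  have h1 : Ideal.absNorm v.asIdeal ∣ Ideal.absNorm (Ideal.span {(p : 𝓞 ℚ)}) :=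
    Ideal.absNorm_dvd_absNorm_of_le ((Ideal.span_singleton_le_iff_mem _).2 hv)
  have h2 : Ideal.absNorm (Ideal.span {(p : 𝓞 ℚ)}) = p := by
    rw [Ideal.absNorm_span_singleton]
    have h3 : Algebra.norm ℤ (p : 𝓞 ℚ) = (p : ℤ) ^ finrank ℤ (𝓞 ℚ) := by
      have h4 := Algebra.norm_algebraMap_of_basis (Module.Free.chooseBasis ℤ (𝓞 ℚ)) (p : ℤ)
      rw [Module.finrank_eq_card_chooseBasisIndex]
      simpa using h4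
    rw [h3]
    have h5 : finrank ℤ (𝓞 ℚ) = 1 := by
      rw [RingOfIntegers.rank, finrank_self]
    rw [h5, pow_one, Int.natAbs_natCast]
  rw [h2] at h1
  rcases (Nat.dvd_prime hp).1 h1 with h3 | h3
  · exfalso
    exact v.isPrime.ne_top (Ideal.absNorm_eq_one_iff.1 h3)
  · exact h3

end main

section rat

variable {ι : Type} [Fintype ι] [DecidableEq ι] {n : ι → ℕ}
  {w : ι → ℤ} {ℓ : ℕ} [hℓ : Fact ℓ.Prime] {Γ : Type} [Group Γ] [TopologicalSpace Γ]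
  [IsTopologicalGroup Γ] [CompactSpace Γ]

/-- Over the rational numbers, the determinants of the stable subspaces have finite order. -/
theorem det_fin (h : Inputs) (h2 : Inputs2) (ρ : Reps Γ n ℓ) (hρ : Conts ρ)
    (s : Gal(AlgebraicClosure ℚ/ℚ) →* Γ) (hs : Continuous s)
    (𝔤 : Submodule ℚ_[ℓ] (End ℚ_[ℓ] (∀ i, Fin (n i) → ℚ_[ℓ]))) (h𝔤 : IsMotivic ρ 𝔤)
    (P : HeightOneSpectrum (𝓞 ℚ) → ι → ℚ[X])
    (T : Set ℕ) (hT3 : 3 ≤ T.encard) (hT : ∀ p ∈ T, p.Prime ∧ p ≠ ℓ ∧ UnramifiedIn ℚ p)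
    (hgood : ∀ p ∈ T, ∀ v, Above v p → GoodPlace (restrictTo ρ s) w v (P v))
    {L : Submodule ℚ_[ℓ] (End ℚ_[ℓ] (∀ i, Fin (n i) → ℚ_[ℓ]))} (hLG : L ≤ 𝔤)
    (hAd : ∀ γ, ∀ X ∈ L, AdE (sumRep ρ γ) (sumRep ρ γ⁻¹) X ∈ L) :
    ∃ m : ℕ, 0 < m ∧ ∀ τ : Gal(AlgebraicClosure ℚ/ℚ),
      detOn L (AdE (sumRep ρ (s τ)) (sumRep ρ (s τ)⁻¹)) (hAd (s τ)) ^ m = 1 := by
  classical
  obtain ⟨j, hj⟩ := exists_j ℓ ℚ_[ℓ] ℚ (algebraMap ℚ ℚ_[ℓ]) (algebraMap ℚ ℂ)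
  obtain ⟨ψ, hψc, hψ, hψg⟩ := det_char (w := w) h h2 ρ hρ s hs 𝔤 h𝔤 j hLG hAd
  obtain ⟨t, htT, ht3⟩ := Set.exists_subset_encard_eq hT3
  have htfin : t.Finite := Set.finite_of_encard_eq_coe ht3
  have htc : Nat.card t = 3 := by
    have h1 : Nat.card t = t.ncard := Nat.card_coe_set_eq t
    have h2 : (t.ncard : ℕ∞) = 3 := by rw [htfin.cast_ncard_eq]; exact ht3
    rw [h1]
    exact_mod_cast h2
  have hfin : Finite t := htfin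
  obtain ⟨e⟩ : Nonempty (Fin 3 ≃ t) := by
    rw [← htc]
    exact ⟨(Finite.equivFin t).symm⟩
  set l : Fin 3 → ℕ := fun i => (e i : ℕ) with hl
  have hlT : ∀ i, l i ∈ T := fun i => htT (e i).2
  have hchoose : ∀ i, ∃ (Q : Ideal (OO ℚ)) (σ : GF ℚ), Q.IsMaximal ∧ (l i : OO ℚ) ∈ Q ∧
      FrobAt (l i) Q σ ∧ IsAlgebraic ℚ (ψ σ : ℚ_[ℓ]) ∧ ‖j (ψ σ : ℚ_[ℓ])‖ = 1 := by
    intro i
    obtain ⟨Q, σ, hQ, hpQ, hσ⟩ := exists_frobQ (hT _ (hlT i)).1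
    have hprime : (cm Q).IsPrime := by
      have := hQ.isPrime
      exact Ideal.comap_isPrime _ _
    have hmem : ((l i : ℕ) : 𝓞 ℚ) ∈ cm Q := by
      change algebraMap (𝓞 ℚ) (OO ℚ) (l i : 𝓞 ℚ) ∈ Q
      rw [map_natCast]
      exact hpQ
    have hne : cm Q ≠ ⊥ := by
      intro h0
      rw [h0, Ideal.mem_bot] at hmem
      exact (hT _ (hlT i)).1.ne_zero (by exact_mod_cast hmem)
    let v : HeightOneSpectrum (𝓞 ℚ) := ⟨cm Q, hprime, hne⟩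
    have hv : Above v (l i) := hmem
    have hnorm : Ideal.absNorm v.asIdeal = l i := absNorm_rat (hT _ (hlT i)).1 hmem
    have h5 := (hψg v (P v) (hgood _ (hlT i) v hv)).2 Q σ hQ.isPrime rfl (by rw [hnorm]; exact hσ)
    exact ⟨Q, σ, hQ, hpQ, hσ, h5.1, h5.2.1⟩
  choose Q σ hQ hpQ hσ halg hw using hchoose
  obtain ⟨N, a', hN, hNa⟩ := char_main ψ hψc l (fun i => (hT _ (hlT i)).1)
    (fun i j hij => e.injective (Subtype.ext hij)) (fun i => (hT _ (hlT i)).2.1)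
    Q (fun i => (hQ i).isPrime) hpQ σ hσ halg
  have ha : a' = 0 := by
    obtain ⟨hpp, hne, hur⟩ := hT (l 0) (hlT 0)
    have hpr : (1 : ℝ) < l 0 := by exact_mod_cast hpp.one_lt
    have h2 : (chiE ℓ ℚ_[ℓ] (σ 0) : ℚ_[ℓ]) = (l 0 : ℚ_[ℓ]) := by
      rw [coe_chiE, chi_frob (hQ 0).isPrime (not_mem_of_ne hpp hne (hQ 0).ne_top
        (hpQ 0)) (hσ 0)]
      simp
    have h3 := congrArg (fun u : ℚ_[ℓ]ˣ => ‖j (u : ℚ_[ℓ])‖) (hNa (σ 0))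
    simp only [Units.val_pow_eq_pow_val, Units.val_zpow_eq_zpow_val] at h3
    rw [h2, map_pow, map_zpow₀, map_natCast, norm_pow, norm_zpow,
      Complex.norm_natCast, hw 0, one_pow] at h3
    have h5 : (l 0 : ℝ) ^ (0 : ℤ) = (l 0 : ℝ) ^ a' := by rw [zpow_zero, h3]
    exact (zpow_right_injective₀ (by linarith) hpr.ne' h5).symm
  refine ⟨N, hN, fun τ => ?_⟩
  have h6 : (ψ τ : ℚ_[ℓ]) ^ N = 1 := by
    rw [← Units.val_pow_eq_pow_val, hNa τ, ha, zpow_zero, Units.val_one]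
  exact (congrArg (fun x => x ^ N) (hψ τ)).symm.trans h6

end rat

end Pool.Agent.H853.CC
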