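import Pool.Agent.H853.CC.Inv

/-!
# The eigenvalues of the conjugation are quotients of eigenvalues on the same summand
-/

set_option autoImplicit false
set_option linter.unusedSectionVars false

namespace Pool.Agent.H853.CC

open Module TensorProduct Polynomial Pool.Agent.TH118.SG Pool.Agent.Y114.RM Pool.Agent.Y86.RM
  Pool.Agent.Y914.RM Pool.Agent.Y212.RM Pool.Agent.NH34.BD Pool.Agent.Y114.MU Pool.Agent.H204R3.GP
  Pool.Agent.H853.SR Pool.Agent.Y114.TF Pool.Agent.Y114.GF

section prj

variable {k : Type} [Field k] {ι : Type} [Fintype ι] [DecidableEq ι] {V : ι → Type}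
  [∀ i, AddCommGroup (V i)] [∀ i, Module k (V i)]

/-- The projection to a summand. -/
def prj (i : ι) : End k (∀ i, V i) := LinearMap.single k V i ∘ₗ LinearMap.proj i

theorem prj_apply (i : ι) (x : ∀ i, V i) : prj (k := k) i x = Pi.single i (x i) := rfl

theorem prj_comm {X : End k (∀ i, V i)} (hX : ∀ x i, X x i = X (Pi.single i (x i)) i) (i : ι) :
    X * prj i = prj i * X := by
  refine LinearMap.ext fun x => funext fun j => ?_
  rw [Module.End.mul_apply, Module.End.mul_apply, prj_apply, prj_apply]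
  by_cases h : j = i
  · subst h
    rw [Pi.single_eq_same]
    exact (hX x j).symm
  · rw [Pi.single_eq_of_ne h, hX, Pi.single_eq_of_ne h, Pi.single_zero, map_zero]
    rfl

theorem prj_idem (i : ι) : prj (k := k) (V := V) i * prj i = prj i := by
  refine LinearMap.ext fun x => ?_
  rw [Module.End.mul_apply, prj_apply, prj_apply, Pi.single_eq_same]

theorem sum_prj : ∑ i, prj (k := k) (V := V) i = 1 := by
  refine LinearMap.ext fun x => ?_
  rw [LinearMap.sum_apply, Module.End.one_apply]
  exact Finset.univ_sum_single x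

theorem ch [∀ i, FiniteDimensional k (V i)] {g : End k (∀ i, V i)} {gi : ∀ i, End k (V i)}
    (h : ∀ x i, g x i = gi i (x i)) (i : ι) : aeval g (gi i).charpoly * prj i = 0 := by
  have h1 : ∀ y : V i, g (Pi.single i y) = Pi.single i (gi i y) := by
    intro y
    funext j
    rw [h]
    by_cases hj : j = i
    · subst hj
      rw [Pi.single_eq_same, Pi.single_eq_same]
    · rw [Pi.single_eq_of_ne hj, Pi.single_eq_of_ne hj, map_zero]
  have h2 : ∀ (m : ℕ) (y : V i), (g ^ m) (Pi.single i y) = Pi.single i (((gi i) ^ m) y) := by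
    intro m
    induction m with
    | zero => intro y; rfl
    | succ m ih => intro y; rw [pow_succ, pow_succ, Module.End.mul_apply, Module.End.mul_apply,
        h1, ih]
  have h3 : ∀ (p : k[X]) (y : V i), aeval g p (Pi.single i y) = Pi.single i (aeval (gi i) p y) := by
    intro p y
    rw [aeval_eq_sum_range, aeval_eq_sum_range, LinearMap.sum_apply, LinearMap.sum_apply]
    have h4 : Pi.single i (∑ d ∈ Finset.range (p.natDegree + 1), (p.coeff d • (gi i) ^ d) y) =
        LinearMap.single k V i (∑ d ∈ Finset.range (p.natDegree + 1), (p.coeff d • (gi i) ^ d) y) :=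
      rfl
    rw [h4, map_sum]
    refine Finset.sum_congr rfl fun d _ => ?_
    rw [LinearMap.smul_apply, LinearMap.smul_apply, h2, map_smul]
    rfl
  refine LinearMap.ext fun x => ?_
  rw [Module.End.mul_apply, prj_apply, h3, LinearMap.aeval_self_charpoly, LinearMap.zero_apply,
    Pi.single_zero, LinearMap.zero_apply]

end prj

section bc

variable {k : Type} [Field k] {C : Type} [Field C] [Algebra k C] {V : Type} [AddCommGroup V]
  [Module k V]

theorem bc_pow (g : End k V) (i : ℕ) : (g.baseChange C) ^ i = (g ^ i).baseChange C := by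
  induction i with
  | zero => rw [pow_zero, pow_zero, bc_one]
  | succ i ih => rw [pow_succ, pow_succ, bc_mul, ih]

theorem bc_sum {α : Type} (s : Finset α) (F : α → End k V) :
    (∑ i ∈ s, F i).baseChange C = ∑ i ∈ s, (F i).baseChange C := by
  classical
  induction s using Finset.induction_on with
  | empty => rw [Finset.sum_empty, Finset.sum_empty, LinearMap.baseChange_zero]
  | insert a s ha ih => rw [Finset.sum_insert ha, Finset.sum_insert ha,
      LinearMap.baseChange_add, ih]

theorem bc_aeval (g : End k V) (p : k[X]) :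
    (aeval g p).baseChange C = aeval (g.baseChange C : End C (C ⊗[k] V)) (p.map (algebraMap k C)) := by
  rw [aeval_eq_sum_range, aeval_eq_sum_range, bc_sum, natDegree_map]
  refine Finset.sum_congr rfl fun i _ => ?_
  rw [coeff_map, bc_pow, LinearMap.baseChange_smul, ← algebraMap_smul C (p.coeff i)]

end bc

section main

variable {k : Type} [Field k] [Algebra k ℂ] {ι : Type} [Fintype ι] [DecidableEq ι] {V : ι → Type}
  [∀ i, AddCommGroup (V i)] [∀ i, Module k (V i)] [∀ i, FiniteDimensional k (V i)]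

/-- **The eigenvalues of the conjugation with `g` on the endomorphisms which respect the sum are
quotients of eigenvalues of `g` on the same summand.** -/
theorem exists_quot {g g' : End k (∀ i, V i)} {gi : ∀ i, End k (V i)} (h1 : g * g' = 1)
    (h2 : g' * g = 1) (h : ∀ x i, g x i = gi i (x i)) {G : Submodule k (End k (∀ i, V i))}
    (hG : ∀ X ∈ G, AdE g g' X ∈ G) (hparts : ∀ X ∈ G, ∀ x i, X x i = X (Pi.single i (x i)) i)
    {X : End ℂ (ℂ ⊗[k] (∀ i, V i))} (hX : X ∈ bcS ℂ G) (hX0 : X ≠ 0) {β : ℂ}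
    (hXβ : X ∈ (AdE (g.baseChange ℂ) (g'.baseChange ℂ)).maxGenEigenspace β) :
    ∃ i, ∃ b : ℂ, b ≠ 0 ∧ aeval b (gi i).charpoly = 0 ∧ aeval (β * b) (gi i).charpoly = 0 ∧
      β ≠ 0 := by
  classical
  set gC : End ℂ (ℂ ⊗[k] (∀ i, V i)) := g.baseChange ℂ with hgC
  set gC' : End ℂ (ℂ ⊗[k] (∀ i, V i)) := g'.baseChange ℂ with hgC'
  have hg1 : gC * gC' = 1 := by rw [hgC, hgC', ← bc_mul, h1, bc_one]
  have hg2 : gC' * gC = 1 := by rw [hgC, hgC', ← bc_mul, h2, bc_one]
  obtain ⟨Y, hY, hY0, hYβ⟩ := exists_eig (AdE_bcS hG) hX hX0 hXβ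
  have hβ0 : β ≠ 0 := by
    rintro rfl
    exact hY0 (gen_zero_ev hg1 hg2 (mem_gen.2 ⟨1, by
      rw [pow_one]
      change AdE gC gC' Y - (0 : ℂ) • Y = 0
      rw [hYβ, sub_self]⟩))
  have hcomm : gC * Y = β • (Y * gC) := by
    have h3 : AdE gC gC' Y * gC = (β • Y) * gC := congrArg (· * gC) hYβ
    rw [AdE_apply, mul_assoc, mul_assoc, hg2, mul_one, smul_mul_assoc] at h3
    exact h3
  let pC : ι → End ℂ (ℂ ⊗[k] (∀ i, V i)) := fun i => (prj i : End k (∀ i, V i)).baseChange ℂ
  have hpY : ∀ i, Y * pC i = pC i * Y := fun i =>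
    bcS_comm (fun X hX => prj_comm (hparts X hX) i) Y hY
  have hgparts : ∀ x i, g x i = g (Pi.single i (x i)) i := by
    intro x i
    rw [h, h, Pi.single_eq_same]
  have hpg : ∀ i, gC * pC i = pC i * gC := by
    intro i
    rw [← bc_mul, ← bc_mul, prj_comm hgparts]
  have hpp : ∀ i, pC i * pC i = pC i := fun i => by rw [← bc_mul, prj_idem]
  have hsum : ∑ i, pC i = 1 := by
    change ∑ i, (prj i : End k (∀ i, V i)).baseChange ℂ = 1
    rw [← bc_sum, sum_prj, bc_one]
  -- a vector on which `Y` does not vanish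
  obtain ⟨i, hi⟩ : ∃ i, Y * pC i ≠ 0 := by
    by_contra hno
    push Not at hno
    apply hY0
    rw [← mul_one Y, ← hsum, Finset.mul_sum]
    exact Finset.sum_eq_zero fun i _ => hno i
  obtain ⟨b, v, hv, hv0⟩ : ∃ b, ∃ v ∈ gC.maxGenEigenspace b, (Y * pC i) v ≠ 0 := by
    by_contra hno
    push Not at hno
    apply hi
    exact op_ext gC fun β v hv => by rw [hno β v hv, LinearMap.zero_apply]
  -- roots
  have hroot : ∀ (c : ℂ) (w : ℂ ⊗[k] (∀ i, V i)), w ≠ 0 → pC i w = w →
      w ∈ gC.maxGenEigenspace c → aeval c (gi i).charpoly = 0 := by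
    intro c w hw0 hpw hw
    let M : Submodule ℂ (ℂ ⊗[k] (∀ i, V i)) := LinearMap.ker (pC i - 1)
    have hM : ∀ x, x ∈ M ↔ pC i x = x := fun x => by
      change (pC i - 1) x = 0 ↔ _
      rw [LinearMap.sub_apply, Module.End.one_apply, sub_eq_zero]
    have hMst : ∀ x ∈ M, gC x ∈ M := by
      intro x hx
      rw [hM] at hx ⊢
      have h3 := LinearMap.congr_fun (hpg i) x
      rw [Module.End.mul_apply, Module.End.mul_apply, hx] at h3
      exact h3.symm
    obtain ⟨u, hu, hu0, huc⟩ := exists_eig hMst ((hM w).2 hpw) hw0 hw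
    have h3 := congrArg (fun F : End k (∀ i, V i) => (F.baseChange ℂ : End ℂ _) u) (ch h i)
    rw [bc_mul, bc_aeval, Module.End.mul_apply, LinearMap.baseChange_zero, LinearMap.zero_apply] at h3
    have h4 : (prj i : End k (∀ i, V i)).baseChange ℂ u = u := (hM u).1 hu
    rw [h4, aeval_eig huc, eval_map_algebraMap] at h3
    exact (smul_eq_zero.1 h3).resolve_right hu0
  set w := pC i v with hw
  have hw1 : pC i w = w := by rw [hw, ← Module.End.mul_apply, hpp]
  have hwb : w ∈ gC.maxGenEigenspace b :=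
    map_gen (f₁ := gC) (f₂ := gC) (A := pC i) (fun x => (LinearMap.congr_fun (hpg i) x).symm) hv
  have hYw : Y w ≠ 0 := hv0
  have hw0 : w ≠ 0 := fun h3 => hYw (by rw [h3, map_zero])
  have hYw1 : pC i (Y w) = Y w := by
    have h3 := LinearMap.congr_fun (hpY i) w
    rw [Module.End.mul_apply, Module.End.mul_apply, hw1] at h3
    exact h3.symm
  have hYwb : Y w ∈ gC.maxGenEigenspace (β * b) := by
    obtain ⟨m, hm⟩ := mem_gen.1 hwb
    refine mem_gen.2 ⟨m, ?_⟩
    have h3 : ∀ (m : ℕ) (x : ℂ ⊗[k] (∀ i, V i)),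
        ((gC - algebraMap ℂ (End ℂ (ℂ ⊗[k] (∀ i, V i))) (β * b)) ^ m) (Y x) =
          β ^ m • Y (((gC - algebraMap ℂ (End ℂ (ℂ ⊗[k] (∀ i, V i))) b) ^ m) x) := by
      intro m
      induction m with
      | zero => intro x; rw [pow_zero, pow_zero, pow_zero, one_smul, Module.End.one_apply,
          Module.End.one_apply]
      | succ m ih =>
        intro x
        have h4 : (gC - algebraMap ℂ (End ℂ (ℂ ⊗[k] (∀ i, V i))) (β * b)) (Y x) =
            Y (β • ((gC - algebraMap ℂ (End ℂ (ℂ ⊗[k] (∀ i, V i))) b) x)) := by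
          have h5 := LinearMap.congr_fun hcomm x
          rw [Module.End.mul_apply, LinearMap.smul_apply, Module.End.mul_apply] at h5
          rw [LinearMap.sub_apply, LinearMap.sub_apply, Module.algebraMap_end_apply,
            Module.algebraMap_end_apply, h5, smul_sub, map_sub, map_smul, map_smul, map_smul,
            smul_smul]
        rw [pow_succ, Module.End.mul_apply, h4, ih, map_smul, map_smul, smul_smul, pow_succ β,
          pow_succ (gC - algebraMap ℂ (End ℂ (ℂ ⊗[k] (∀ i, V i))) b), Module.End.mul_apply]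
    rw [h3, hm, map_zero, smul_zero]
  have hb0 : b ≠ 0 := by
    rintro rfl
    obtain ⟨m, hm⟩ := mem_gen.1 hwb
    rw [map_zero, sub_zero] at hm
    have hinj : Function.Injective gC := injective_of_mul hg2
    apply hw0
    clear_value w
    clear hw1 hwb hYw hw0 hYw1 hYwb hw
    induction m generalizing w with
    | zero => exact hm
    | succ m ih =>
      rw [pow_succ, Module.End.mul_apply] at hm
      exact hinj (by rw [ih _ hm, map_zero])
  exact ⟨i, b, hb0, hroot b w hw0 hw1 hwb, hroot _ _ hYw hYw1 hYwb, hβ0⟩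

end main

end Pool.Agent.H853.CC
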